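import Pool.Agent.N172.TW.Cheb

/-! Bessel's inequality for chains of pairs of twisted quotients. -/

set_option autoImplicit false
set_option linter.unusedSectionVars false

namespace Pool.Agent.N172.TW

open Complex Filter Topology NumberField IsDedekindDomain Matrix
open Pool.Agent.W540.BE Pool.Agent.W353.L1 Pool.Agent.W401.Cheb
open Pool.Agent.H341R2 (lam lam_tendsto)
open Pool.Agent.Y149.WR (sq_of_gram exists_prime)

section
variable {K : Type} [Field K] [NumberField K] {A : Type} [Group A] [Fintype A]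
  {act : Gal(AlgebraicClosure K/K) →* MulAut A} {χ : A → ℂ} {n : ℕ} {n₀ : ℝ}

/-- the trace of a pair -/
noncomputable def gt (ρ : HeightOneSpectrum (𝓞 K) → (A →* unitaryGroup (Fin n) ℂ))
    (W : HeightOneSpectrum (𝓞 K) → unitaryGroup (Fin n) ℂ)
    (σ : HeightOneSpectrum (𝓞 K) → GK K) (P : Form act × Form act)
    (v : HeightOneSpectrum (𝓞 K)) : ℝ :=
  (trace (op (ρ v) (nu P (σ v)) * (W v : Matrix (Fin n) (Fin n) ℂ))).re

variable {ρ : HeightOneSpectrum (𝓞 K) → (A →* unitaryGroup (Fin n) ℂ)}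
  {W : HeightOneSpectrum (𝓞 K) → unitaryGroup (Fin n) ℂ}
  {σ : HeightOneSpectrum (𝓞 K) → GK K}
  (hcomm : ∀ v a, W v * ρ v a = ρ v (act (σ v) a) * W v)
  (hchar : ∀ v a, trace (ρ v a : Matrix (Fin n) (Fin n) ℂ) = χ a)
  (hn₀ : ((Fintype.card A : ℂ))⁻¹ * ∑ a, χ a = n₀)
include hcomm hchar hn₀

theorem n₀_le' : n₀ ≤ n := by
  obtain ⟨v⟩ := exists_prime (K := K)
  exact n₀_le (ρ v) (hchar v) hn₀

theorem gt_sum_sq {κ : Type*} (S : Finset κ) (P : κ → Form act × Form act) (c : κ → ℝ)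
    (v : HeightOneSpectrum (𝓞 K)) :
    (∑ k ∈ S, c k * gt ρ W σ (P k) v) ^ 2 ≤
      (n - n₀) * ∑ j ∈ S, ∑ k ∈ S, (c j * c k) * psi χ (P j) (P k) (σ v) := by
  have h1 : ∑ k ∈ S, c k * gt ρ W σ (P k) v =
      (trace (op (ρ v) (fun a => ∑ k ∈ S, c k * nua (P k) (σ v) a) *
        (W v : Matrix (Fin n) (Fin n) ℂ))).re := by
    rw [op_add_sum, Finset.sum_mul, trace_sum, Complex.re_sum]
    refine Finset.sum_congr rfl fun k _ => ?_
    rw [smul_mul_assoc, trace_smul, smul_eq_mul, Complex.re_ofReal_mul]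
    unfold gt nua
    rw [trace_sm (ρ v) (W v) (hcomm v)]
  rw [h1]
  have h2 := trace_ineq (ρ v) (hchar v) hn₀ (W v)
    (f := fun a => ∑ k ∈ S, c k * nua (P k) (σ v) a) (by
      rw [Finset.sum_comm]
      refine Finset.sum_eq_zero fun k _ => ?_
      rw [← Finset.mul_sum, sum_nua, mul_zero])
  refine h2.trans (le_of_eq ?_)
  have h3 := qf_sum_sum (χ := χ) S c (fun k => nua (P k) (σ v))
  unfold qf at h3
  rw [h3]
  rfl

theorem psi_diag (P : Form act × Form act) (v : HeightOneSpectrum (𝓞 K)) :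
    psi χ P P (σ v) ≤ 4 * (n - n₀) := by
  have h := diag_bound (ρ v) (hchar v) hn₀ (sum_nua P (σ v)) (abs_nua P (σ v))
  unfold psi qf
  linarith

theorem abs_gt (P : Form act × Form act) (v : HeightOneSpectrum (𝓞 K)) :
    |gt ρ W σ P v| ≤ 2 * (n - n₀) := by
  have h1 := gt_sum_sq hcomm hchar hn₀ (Finset.univ : Finset Unit) (fun _ => P) (fun _ => 1) v
  simp only [Finset.univ_unique, Finset.sum_singleton, one_mul] at h1
  have h2 := psi_diag hcomm hchar hn₀ P v
  have h3 := n₀_le' hcomm hchar hn₀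
  refine abs_le_of_sq_le_sq ?_ (by linarith)
  nlinarith

theorem abs_psi (P P' : Form act × Form act) (v : HeightOneSpectrum (𝓞 K)) :
    |psi χ P P' (σ v)| ≤ 4 * (n + |n₀|) := by
  have hC : ∀ a, ‖χ a‖ ≤ n + |n₀| := by
    intro a
    have h1 := chi_bound (ρ v) (hchar v) hn₀ a
    have h2 : ‖χ a‖ ≤ ‖χ a - n₀‖ + ‖(n₀ : ℂ)‖ := by
      have := norm_add_le (χ a - n₀) (n₀ : ℂ)
      rwa [sub_add_cancel] at this
    rw [Complex.norm_real, Real.norm_eq_abs] at h2
    -- `n - n₀ + |n₀|` may be larger than `n + |n₀|` only if `n₀ < 0`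
    have h3 : (0 : ℝ) ≤ n₀ := by
      have := trace_proj (ρ v) (hchar v) hn₀
      have h4 := trace_mul_conjTranspose (proj (ρ v))
      rw [proj_star, proj_proj, this, Complex.ofReal_re] at h4
      rw [h4]
      exact Finset.sum_nonneg fun _ _ => by positivity
    linarith
  have h1 := abs_qf_le (χ := χ) hC (nua P (σ v)) (nua P' (σ v))
  refine h1.trans ?_
  have h2 := abs_nua P (σ v)
  have h3 := abs_nua P' (σ v)
  have h4 : 0 ≤ ∑ a, |nua P (σ v) a| := Finset.sum_nonneg fun _ _ => abs_nonneg _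
  have h5 : 0 ≤ ∑ a, |nua P' (σ v) a| := Finset.sum_nonneg fun _ _ => abs_nonneg _
  have h6 : (∑ a, |nua P (σ v) a|) * (∑ a, |nua P' (σ v) a|) ≤ 2 * 2 :=
    mul_le_mul h2 h3 h5 (by norm_num)
  have h7 : (0 : ℝ) ≤ n + |n₀| := by positivity
  nlinarith

/-- Cauchy–Schwarz for the weighted sums -/
theorem EP_sq {φ : HeightOneSpectrum (𝓞 K) → ℝ} {B : ℝ} (hB : ∀ v, |φ v| ≤ B) {ε : ℝ}
    (hε : 0 < ε) : (EP (nm K) ε φ) ^ 2 ≤ (EP (nm K) ε fun _ => 1) * EP (nm K) ε fun v => φ v ^ 2 := by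
  obtain ⟨p0⟩ := exists_prime (K := K)
  have h := gram_eps (normSys (F := K)) p0 (Finset.univ : Finset Unit) (fun _ => (1 : ℂ))
    (fun _ v => ((φ v : ℝ) : ℂ)) 1 (fun _ => by simp) (fun _ => B) (fun _ v => by
      rw [Complex.norm_real]; exact hB v) (fun _ => 1) hε
  simp only [Finset.univ_unique, Finset.sum_singleton, one_mul, one_pow, Complex.conj_ofReal,
    Complex.ofReal_re] at h
  refine h.trans (le_of_eq ?_)
  congr 2
  funext v
  rw [← Complex.ofReal_mul, Complex.ofReal_re, sq]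

/-- **Bessel's inequality for a chain of pairs, with a bound for the squares.** -/
theorem chain_bessel' (hgal : ∀ τ a, χ (act τ a) = χ a) (hσ : ∀ v, IsFrob v (σ v)) {m : ℕ}
    (P : Fin m → Form act × Form act) (U : Fin m → Subgroup (GK K)) {V : Subgroup (GK K)}
    [V.Normal] (hVo : IsOpen (V : Set (GK K))) (hU : ∀ k, U k ≤ act.ker) (hVU : ∀ k, V ≤ U k)
    (hPU : ∀ j k, j < k → TrivOn (P j) (U k)) (hPV : ∀ k, TrivOn (P k) V)
    (ht : ∀ k τ, (P k).1.type (U k) τ = (P k).2.type (U k) τ) (x : Fin m → ℝ → ℝ)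
    (hx : ∀ k, Tendsto (fun ε : ℝ => (EP (nm K) ε fun v => gt ρ W σ (P k) v) / lam ε - x k ε)
      (𝓝[>] 0) (𝓝 0)) {β : ℝ} (hβ : 0 ≤ β) (hβ2 : β ≤ 2)
    (hdiag : ∀ k v, psi χ (P k) (P k) (σ v) ≤ β ^ 2 * (n - n₀)) {η : ℝ} (hη : 0 < η) :
    ∀ᶠ ε : ℝ in 𝓝[>] 0, ∑ k, x k ε ^ 2 ≤ (β * (n - n₀)) ^ 2 + η := by
  classical
  have hN : NormSys (nm K) := normSys
  set D : ℝ := n - n₀ with hD
  have hD0 : 0 ≤ D := by
    have := n₀_le' hcomm hchar hn₀
    linarith
  set y : Fin m → ℝ → ℝ := fun k ε => (EP (nm K) ε fun v => gt ρ W σ (P k) v) / lam ε with hy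
  set e : Fin m → Fin m → ℝ → ℝ := fun j k ε =>
    (EP (nm K) ε fun v => psi χ (P j) (P k) (σ v)) / lam ε with he
  set C : ℝ := 4 * D + 1 with hC
  have hC0 : 0 < C := by linarith
  -- the correlations
  have hoff : ∀ j k, j ≠ k → Tendsto (e j k) (𝓝[>] 0) (𝓝 0) := by
    intro j k hjk
    rcases lt_or_gt_of_ne hjk with h | h
    · exact psi_edge hgal hVo (hU k) (hVU k) (hPU j k h) (hPV k) (ht k) σ hσ
    · have h1 := psi_edge hgal hVo (hU j) (hVU j) (hPU k j h) (hPV j) (ht j) σ hσ (χ := χ)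
      refine h1.congr fun ε => ?_
      rw [he]
      simp only
      congr 2
      funext v
      -- symmetry
      unfold psi qf
      rw [← Complex.conj_re, map_sum, Finset.sum_comm]
      congr 1
      refine Finset.sum_congr rfl fun a _ => ?_
      rw [map_sum]
      refine Finset.sum_congr rfl fun b _ => ?_
      have e1 : χ (b * a⁻¹) = trace (ρ v (b * a⁻¹) : Matrix (Fin n) (Fin n) ℂ) :=
        (hchar v _).symm
      have e2 : χ (a * b⁻¹) = trace (ρ v (a * b⁻¹) : Matrix (Fin n) (Fin n) ℂ) :=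
        (hchar v _).symm
      have e3 : a * b⁻¹ = (b * a⁻¹)⁻¹ := by group
      have e4 : (starRingEnd ℂ) (χ (b * a⁻¹)) = χ (a * b⁻¹) := by
        rw [e1, e2, e3, ← coe_star, trace_conjTranspose]
        rfl
      have e5 : (starRingEnd ℂ) (χ (a * b⁻¹)) = χ (b * a⁻¹) := by
        rw [← e4, Complex.conj_conj]
      rw [map_mul, Complex.conj_ofReal]
      first
        | rw [e4, mul_comm (nua (P k) (σ v) b)]
        | rw [e5, mul_comm (nua (P k) (σ v) a)]
  -- bounds for small ε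
  have ev1 : ∀ δ : ℝ, 0 < δ → ∀ᶠ ε : ℝ in 𝓝[>] 0,
      0 < lam ε ∧ 0 < ε ∧ 0 ≤ (EP (nm K) ε fun _ => 1) / lam ε ∧
      (EP (nm K) ε fun _ => 1) / lam ε ≤ 1 + δ ∧ ∀ j k, j ≠ k → |e j k ε| ≤ δ := by
    intro δ hδ
    have h1 := (EP_one K).eventually_lt_const (by linarith : (1 : ℝ) < 1 + δ)
    have h2 : ∀ᶠ ε : ℝ in 𝓝[>] 0, ∀ j k, j ≠ k → |e j k ε| ≤ δ := by
      rw [Filter.eventually_all]
      intro j
      rw [Filter.eventually_all]
      intro k
      by_cases hjk : j = k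
      · exact Eventually.of_forall fun ε h => absurd hjk h
      · have := (Metric.tendsto_nhds.1 (hoff j k hjk)) δ hδ
        refine this.mono fun ε h _ => ?_
        rw [Real.dist_eq, sub_zero] at h
        exact h.le
    filter_upwards [h1, h2, lam_tendsto.eventually_gt_atTop 0, self_mem_nhdsWithin]
      with ε h3 h4 h5 h6
    exact ⟨h5, h6, div_nonneg (EP_nonneg fun _ => zero_le_one) h5.le, h3.le, h4⟩
  have hybd : ∀ᶠ ε : ℝ in 𝓝[>] 0, ∀ k, |y k ε| ≤ 4 * D := by
    filter_upwards [ev1 1 one_pos] with ε h k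
    obtain ⟨h1, h2, h3, h4, -⟩ := h
    have h5 := EP_abs_le (F := K) (φ := fun v => gt ρ W σ (P k) v) (ψ := fun _ => 2 * D)
      (B := 2 * D) (fun _ => by rw [abs_of_nonneg (by linarith)])
      (fun v => abs_gt hcomm hchar hn₀ (P k) v) h2
    have h6 : (EP (nm K) ε fun _ => 2 * D) = 2 * D * EP (nm K) ε fun _ => 1 := by
      rw [← EP_const_mul]
      simp
    rw [h6] at h5
    rw [hy]
    simp only
    rw [abs_div, abs_of_pos h1, div_le_iff₀ h1]
    rw [div_le_iff₀ h1] at h4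
    nlinarith
  have key : ∀ η' : ℝ, 0 < η' → ∀ᶠ ε : ℝ in 𝓝[>] 0, ∀ c : Fin m → ℝ, (∀ k ∈ Finset.univ,
      |c k| ≤ C) → (∑ k, c k * y k ε) ^ 2 ≤ (β * D) ^ 2 * (∑ k, c k ^ 2 * 1) + η' := by
    intro η' hη'
    obtain ⟨δ, hδ0, hδ1, hδ2⟩ : ∃ δ : ℝ, 0 < δ ∧ δ ≤ 1 ∧
        δ * (12 * D ^ 2 * (m * C ^ 2) + 2 * D * (m ^ 2 * C ^ 2)) ≤ η' := by
      set T : ℝ := 12 * D ^ 2 * (m * C ^ 2) + 2 * D * (m ^ 2 * C ^ 2) with hT
      have hT0 : 0 ≤ T := by positivity
      refine ⟨min 1 (η' / (T + 1)), lt_min one_pos (by positivity), min_le_left _ _, ?_⟩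
      calc min 1 (η' / (T + 1)) * T ≤ η' / (T + 1) * (T + 1) :=
            mul_le_mul (min_le_right _ _) (by linarith) hT0 (by positivity)
        _ = η' := div_mul_cancel₀ _ (by positivity)
    filter_upwards [ev1 δ hδ0] with ε h c hc
    obtain ⟨h1, h2, h3, h4, h5⟩ := h
    set u : ℝ := (EP (nm K) ε fun _ => 1) / lam ε with hu
    set Q : ℝ := ∑ k, c k ^ 2 with hQ
    have hQ0 : 0 ≤ Q := Finset.sum_nonneg fun _ _ => sq_nonneg _
    have hQC : Q ≤ m * C ^ 2 := by
      refine (Finset.sum_le_card_nsmul _ _ (C ^ 2) fun k hk => ?_).trans ?_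
      · rw [← sq_abs]
        exact pow_le_pow_left₀ (abs_nonneg _) (hc k hk) 2
      · rw [Finset.card_univ, Fintype.card_fin, nsmul_eq_mul]
    -- the inequality at a fixed ε
    have hgb : ∀ k v, |c k * gt ρ W σ (P k) v| ≤ |c k| * (2 * D) := fun k v => by
      rw [abs_mul]
      exact mul_le_mul_of_nonneg_left (abs_gt hcomm hchar hn₀ (P k) v) (abs_nonneg _)
    have e1 : ∑ k, c k * y k ε = (EP (nm K) ε fun v => ∑ k, c k * gt ρ W σ (P k) v) / lam ε := by
      rw [EP_sum hN h2 Finset.univ (fun k v => c k * gt ρ W σ (P k) v)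
        (fun k => |c k| * (2 * D)) (fun k _ v => hgb k v), Finset.sum_div]
      refine Finset.sum_congr rfl fun k _ => ?_
      rw [EP_const_mul, hy]
      ring
    have hsb : ∀ v, |∑ k, c k * gt ρ W σ (P k) v| ≤ ∑ k, |c k| * (2 * D) := fun v =>
      (Finset.abs_sum_le_sum_abs _ _).trans (Finset.sum_le_sum fun k _ => hgb k v)
    have e2 := EP_sq hcomm hchar hn₀ hsb h2
    have hpb : ∀ j k v, |(c j * c k) * psi χ (P j) (P k) (σ v)| ≤
        |c j * c k| * (4 * (n + |n₀|)) := fun j k v => by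
      rw [abs_mul]
      exact mul_le_mul_of_nonneg_left (abs_psi hcomm hchar hn₀ _ _ v) (abs_nonneg _)
    have e3 : (EP (nm K) ε fun v => (∑ k, c k * gt ρ W σ (P k) v) ^ 2) ≤
        D * ∑ j, ∑ k, (c j * c k) * EP (nm K) ε fun v => psi χ (P j) (P k) (σ v) := by
      have h6 : (EP (nm K) ε fun v => (∑ k, c k * gt ρ W σ (P k) v) ^ 2) ≤
          EP (nm K) ε fun v => D * ∑ j, ∑ k, (c j * c k) * psi χ (P j) (P k) (σ v) := by
        refine EP_mono (B := (∑ k, |c k| * (2 * D)) ^ 2)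
          (B' := D * ∑ j, ∑ k, |c j * c k| * (4 * (n + |n₀|))) (fun v => ?_) (fun v => ?_)
          (fun v => gt_sum_sq hcomm hchar hn₀ Finset.univ P c v) h2
        · rw [abs_of_nonneg (sq_nonneg _), ← sq_abs]
          exact pow_le_pow_left₀ (abs_nonneg _) (hsb v) 2
        · rw [abs_mul, abs_of_nonneg hD0]
          refine mul_le_mul_of_nonneg_left ?_ hD0
          refine (Finset.abs_sum_le_sum_abs _ _).trans (Finset.sum_le_sum fun j _ => ?_)
          exact (Finset.abs_sum_le_sum_abs _ _).trans (Finset.sum_le_sum fun k _ => hpb j k v)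
      refine h6.trans (le_of_eq ?_)
      rw [EP_const_mul, EP_sum hN h2 Finset.univ
        (fun j v => ∑ k, (c j * c k) * psi χ (P j) (P k) (σ v))
        (fun j => ∑ k, |c j * c k| * (4 * (n + |n₀|))) (fun j _ v =>
          (Finset.abs_sum_le_sum_abs _ _).trans (Finset.sum_le_sum fun k _ => hpb j k v))]
      congr 1
      refine Finset.sum_congr rfl fun j _ => ?_
      rw [EP_sum hN h2 Finset.univ (fun k v => (c j * c k) * psi χ (P j) (P k) (σ v))
        (fun k => |c j * c k| * (4 * (n + |n₀|))) (fun k _ v => hpb j k v)]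
      exact Finset.sum_congr rfl fun k _ => by rw [EP_const_mul]
    -- the quadratic form
    have e4 : ∑ j, ∑ k, (c j * c k) * e j k ε ≤ β ^ 2 * D * u * Q + m ^ 2 * C ^ 2 * δ := by
      have h7 : ∀ j k, (c j * c k) * e j k ε ≤
          (if j = k then β ^ 2 * D * u * c j ^ 2 else 0) + C ^ 2 * δ := by
        intro j k
        by_cases hjk : j = k
        · subst hjk
          rw [if_pos rfl]
          have h8 : e j j ε ≤ β ^ 2 * D * u := by
            have h9 := EP_le hN h2 (φ := fun v => psi χ (P j) (P j) (σ v))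
              (fun v => abs_psi hcomm hchar hn₀ _ _ v) (b := β ^ 2 * D)
              (fun v => hdiag j v)
            rw [he, hu]
            simp only
            rw [mul_div_assoc', div_le_div_iff_of_pos_right h1]
            exact h9
          have h10 : 0 ≤ C ^ 2 * δ := by positivity
          nlinarith [sq_nonneg (c j)]
        · rw [if_neg hjk, zero_add]
          refine (le_abs_self _).trans ?_
          rw [abs_mul, abs_mul]
          have h8 := hc j (Finset.mem_univ _)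
          have h9 := hc k (Finset.mem_univ _)
          have h10 : |c j| * |c k| ≤ C * C := mul_le_mul h8 h9 (abs_nonneg _) hC0.le
          calc |c j| * |c k| * |e j k ε| ≤ C * C * δ :=
                mul_le_mul h10 (h5 j k hjk) (abs_nonneg _) (by positivity)
            _ = C ^ 2 * δ := by ring
      refine (Finset.sum_le_sum fun j _ => Finset.sum_le_sum fun k _ => h7 j k).trans
        (le_of_eq ?_)
      have h8 : ∀ j, ∑ k, ((if j = k then β ^ 2 * D * u * c j ^ 2 else 0) + C ^ 2 * δ) =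
          β ^ 2 * D * u * c j ^ 2 + m * (C ^ 2 * δ) := by
        intro j
        rw [Finset.sum_add_distrib, Finset.sum_ite_eq, if_pos (Finset.mem_univ _),
          Finset.sum_const, Finset.card_univ, Fintype.card_fin, nsmul_eq_mul]
      rw [Finset.sum_congr rfl fun j _ => h8 j, Finset.sum_add_distrib, ← Finset.mul_sum,
        Finset.sum_const, Finset.card_univ, Fintype.card_fin, nsmul_eq_mul]
      ring
    have e5 : (∑ k, c k * y k ε) ^ 2 ≤ u * (D * ∑ j, ∑ k, (c j * c k) * e j k ε) := by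
      have h7 : ∑ j, ∑ k, (c j * c k) * e j k ε =
          (∑ j, ∑ k, (c j * c k) * EP (nm K) ε fun v => psi χ (P j) (P k) (σ v)) / lam ε := by
        rw [Finset.sum_div]
        refine Finset.sum_congr rfl fun j _ => ?_
        rw [Finset.sum_div]
        exact Finset.sum_congr rfl fun k _ => by rw [he]; ring
      rw [e1, h7, div_pow, hu]
      have h8 : (EP (nm K) ε fun _ => 1) / lam ε * (D * ((∑ j, ∑ k, (c j * c k) *
          EP (nm K) ε fun v => psi χ (P j) (P k) (σ v)) / lam ε)) =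
          ((EP (nm K) ε fun _ => 1) * (D * ∑ j, ∑ k, (c j * c k) *
          EP (nm K) ε fun v => psi χ (P j) (P k) (σ v))) / lam ε ^ 2 := by
        field_simp
      rw [h8]
      refine div_le_div_of_nonneg_right ?_ (by positivity)
      exact e2.trans (mul_le_mul_of_nonneg_left e3 (EP_nonneg fun _ => zero_le_one))
    have e6 : u * (D * ∑ j, ∑ k, (c j * c k) * e j k ε) ≤
        u * (D * (β ^ 2 * D * u * Q + m ^ 2 * C ^ 2 * δ)) :=
      mul_le_mul_of_nonneg_left (mul_le_mul_of_nonneg_left e4 hD0) h3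
    have hu2 : u ≤ 2 := by linarith
    have hβ4 : β ^ 2 ≤ 4 := by
      have := pow_le_pow_left₀ hβ hβ2 2
      norm_num at this
      exact this
    have e7 : u * (D * (β ^ 2 * D * u * Q + m ^ 2 * C ^ 2 * δ)) ≤
        (β * D) ^ 2 * Q + δ * (12 * D ^ 2 * (m * C ^ 2) + 2 * D * (m ^ 2 * C ^ 2)) := by
      have h7 : u * u ≤ 1 + 3 * δ := by
        calc u * u ≤ (1 + δ) * (1 + δ) := mul_le_mul h4 h4 h3 (by linarith)
          _ ≤ 1 + 3 * δ := by nlinarith
      have h8 : u * (D * (β ^ 2 * D * u * Q)) ≤ (β * D) ^ 2 * Q + δ * (12 * D ^ 2 * (m * C ^ 2)) := by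
        have h9 : 0 ≤ β ^ 2 * D ^ 2 * Q := by positivity
        have h10 : u * u * (β ^ 2 * D ^ 2 * Q) ≤ (1 + 3 * δ) * (β ^ 2 * D ^ 2 * Q) :=
          mul_le_mul_of_nonneg_right h7 h9
        have h11 : 3 * δ * (β ^ 2 * D ^ 2 * Q) ≤ 3 * δ * (4 * D ^ 2 * (m * C ^ 2)) := by
          gcongr
        calc u * (D * (β ^ 2 * D * u * Q)) = u * u * (β ^ 2 * D ^ 2 * Q) := by ring
          _ ≤ (1 + 3 * δ) * (β ^ 2 * D ^ 2 * Q) := h10
          _ = (β * D) ^ 2 * Q + 3 * δ * (β ^ 2 * D ^ 2 * Q) := by ring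
          _ ≤ (β * D) ^ 2 * Q + 3 * δ * (4 * D ^ 2 * (m * C ^ 2)) := by linarith
          _ = _ := by ring
      have h12 : u * (D * (m ^ 2 * C ^ 2 * δ)) ≤ δ * (2 * D * (m ^ 2 * C ^ 2)) := by
        calc u * (D * (m ^ 2 * C ^ 2 * δ)) ≤ 2 * (D * (m ^ 2 * C ^ 2 * δ)) :=
              mul_le_mul_of_nonneg_right hu2 (by positivity)
          _ = _ := by ring
      linarith
    simp only [mul_one]
    linarith
  have hsq := sq_of_gram Finset.univ y (β * D) 1 zero_le_one (C := C)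
    (hybd.mono fun ε h k _ => (h k).trans (by rw [hC]; linarith)) (fun η' hη' => key η' hη')
    (η := η / 2) (by linarith)
  -- from `y` to `x`
  obtain ⟨θ, hθ0, hθ1, hθ2⟩ : ∃ θ : ℝ, 0 < θ ∧ θ ≤ 1 ∧ m * (θ * (2 * C)) ≤ η / 2 := by
    refine ⟨min 1 (η / 2 / (m * (2 * C) + 1)), lt_min one_pos (by positivity),
      min_le_left _ _, ?_⟩
    calc m * (min 1 (η / 2 / (m * (2 * C) + 1)) * (2 * C)) =
          min 1 (η / 2 / (m * (2 * C) + 1)) * (m * (2 * C)) := by ring
      _ ≤ η / 2 / (m * (2 * C) + 1) * (m * (2 * C) + 1) :=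
          mul_le_mul (min_le_right _ _) (by linarith) (by positivity) (by positivity)
      _ = η / 2 := div_mul_cancel₀ _ (by positivity)
  have hclose : ∀ᶠ ε : ℝ in 𝓝[>] 0, ∀ k, |y k ε - x k ε| ≤ θ := by
    rw [Filter.eventually_all]
    intro k
    refine ((Metric.tendsto_nhds.1 (hx k)) θ hθ0).mono fun ε h => ?_
    rw [Real.dist_eq, sub_zero] at h
    exact h.le
  filter_upwards [hsq, hclose, hybd] with ε h1 h2 h3
  have h4 : ∀ k, x k ε ^ 2 ≤ y k ε ^ 2 + θ * (2 * C) := by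
    intro k
    have h5 := h2 k
    have h6 := h3 k
    have h7 : |x k ε - y k ε| ≤ θ := by rw [abs_sub_comm]; exact h5
    have h8 : |x k ε + y k ε| ≤ 2 * C := by
      have h9 : |x k ε| ≤ |x k ε - y k ε| + |y k ε| := by
        have := abs_add_le (x k ε - y k ε) (y k ε)
        rwa [sub_add_cancel] at this
      have h10 := abs_add_le (x k ε) (y k ε)
      rw [hC]
      linarith
    have h11 : (x k ε - y k ε) * (x k ε + y k ε) ≤ θ * (2 * C) := by
      refine (le_abs_self _).trans ?_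
      rw [abs_mul]
      exact mul_le_mul h7 h8 (abs_nonneg _) hθ0.le
    nlinarith
  have h5 : ∑ k, x k ε ^ 2 ≤ ∑ k, y k ε ^ 2 + m * (θ * (2 * C)) := by
    refine (Finset.sum_le_sum fun k _ => h4 k).trans (le_of_eq ?_)
    rw [Finset.sum_add_distrib, Finset.sum_const, Finset.card_univ, Fintype.card_fin,
      nsmul_eq_mul]
  simp only [mul_one] at h1
  linarith

/-- **Bessel's inequality for a chain of pairs.** -/
theorem chain_bessel (hgal : ∀ τ a, χ (act τ a) = χ a) (hσ : ∀ v, IsFrob v (σ v)) {m : ℕ}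
    (P : Fin m → Form act × Form act) (U : Fin m → Subgroup (GK K)) {V : Subgroup (GK K)}
    [V.Normal] (hVo : IsOpen (V : Set (GK K))) (hU : ∀ k, U k ≤ act.ker) (hVU : ∀ k, V ≤ U k)
    (hPU : ∀ j k, j < k → TrivOn (P j) (U k)) (hPV : ∀ k, TrivOn (P k) V)
    (ht : ∀ k τ, (P k).1.type (U k) τ = (P k).2.type (U k) τ) (x : Fin m → ℝ → ℝ)
    (hx : ∀ k, Tendsto (fun ε : ℝ => (EP (nm K) ε fun v => gt ρ W σ (P k) v) / lam ε - x k ε)
      (𝓝[>] 0) (𝓝 0)) {η : ℝ} (hη : 0 < η) :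
    ∀ᶠ ε : ℝ in 𝓝[>] 0, ∑ k, x k ε ^ 2 ≤ (2 * (n - n₀)) ^ 2 + η :=
  chain_bessel' hcomm hchar hn₀ hgal hσ P U hVo hU hVU hPU hPV ht x hx (by norm_num) le_rfl
    (fun k v => (psi_diag hcomm hchar hn₀ (P k) v).trans (by linarith)) hη

/-- the case that the second form is the quotient -/
theorem psi_diag_one {P : Form act × Form act} (h2 : P.2.B = ⊤)
    (v : HeightOneSpectrum (𝓞 K)) : psi χ P P (σ v) ≤ 1 ^ 2 * (n - n₀) := by
  classical
  -- the first distribution
  set p : A → ℝ := sm (act (σ v)) (P.1.mu (σ v)) with hp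
  set u : A → ℝ := fun _ => (Fintype.card A : ℝ)⁻¹ with hu
  have hu2 : sm (act (σ v)) (P.2.mu (σ v)) = u := by
    funext x
    have e : ∀ y, P.2.mu (σ v) y = (Fintype.card A : ℝ)⁻¹ := by
      intro y
      unfold Form.mu
      rw [h2, if_pos (Subgroup.mem_top _), Nat.card_congr (Subgroup.topEquiv (G := A)).toEquiv,
        Nat.card_eq_fintype_card]
    unfold sm
    simp only [e]
    rw [Finset.sum_const, Finset.card_univ, nsmul_eq_mul, hu]
    have := cardR_pos (A := A)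
    field_simp
  have hnua : ∀ a, nua P (σ v) a = p a - u a := by
    intro a
    unfold nua nu
    rw [sm_sub, hu2]
  have hp1 : ∑ a, p a = 1 := by
    rw [hp, sum_sm, P.1.sum_mu]
  have hp0 : ∀ a, 0 ≤ p a := by
    intro a
    rw [hp]
    unfold sm
    have := cardR_pos (A := A)
    exact mul_nonneg (inv_pos.2 this).le (Finset.sum_nonneg fun b _ => P.1.mu_nonneg _ _)
  have hu1 : ∑ a, u a = 1 := by
    rw [hu, Finset.sum_const, Finset.card_univ, nsmul_eq_mul]
    exact mul_inv_cancel₀ (cardR_pos (A := A)).ne'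
  -- the mean value of the character
  have hm : ∀ a, ∑ b, ((u b : ℝ) : ℂ) * χ (a * b⁻¹) = n₀ := by
    intro a
    have e1 : ∑ b, ((u b : ℝ) : ℂ) * χ (a * b⁻¹) = ∑ b, (Fintype.card A : ℂ)⁻¹ * χ b := by
      refine Fintype.sum_equiv ((Equiv.inv A).trans (Equiv.mulLeft a)) _ _ fun b => ?_
      rw [hu]
      push_cast
      rfl
    rw [e1, ← Finset.mul_sum, hn₀]
  have hm' : ∀ b, ∑ a, ((u a : ℝ) : ℂ) * χ (a * b⁻¹) = n₀ := by
    intro b
    have e1 : ∑ a, ((u a : ℝ) : ℂ) * χ (a * b⁻¹) = ∑ a, (Fintype.card A : ℂ)⁻¹ * χ a := by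
      refine Fintype.sum_equiv (Equiv.mulRight b⁻¹) _ _ fun a => ?_
      rw [hu]
      push_cast
      rfl
    rw [e1, ← Finset.mul_sum, hn₀]
  have hS : ∑ a, ∑ b, ((nua P (σ v) a * nua P (σ v) b : ℝ) : ℂ) * χ (a * b⁻¹) =
      ∑ a, ∑ b, ((p a * p b : ℝ) : ℂ) * χ (a * b⁻¹) - n₀ := by
    have e1 : ∀ a, ∑ b, ((nua P (σ v) a * nua P (σ v) b : ℝ) : ℂ) * χ (a * b⁻¹) =
        ∑ b, ((p a * p b : ℝ) : ℂ) * χ (a * b⁻¹) - (p a : ℂ) * n₀ -
          ∑ b, (u a : ℂ) * ((p b : ℂ) * χ (a * b⁻¹)) + (u a : ℂ) * n₀ := by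
      intro a
      rw [← hm a, Finset.mul_sum, Finset.mul_sum, ← Finset.sum_sub_distrib,
        ← Finset.sum_sub_distrib, ← Finset.sum_add_distrib]
      refine Finset.sum_congr rfl fun b _ => ?_
      rw [hnua, hnua]
      push_cast
      ring
    rw [Finset.sum_congr rfl fun a _ => e1 a, Finset.sum_add_distrib, Finset.sum_sub_distrib,
      Finset.sum_sub_distrib, ← Finset.sum_mul, ← Finset.sum_mul]
    have e2 : ∑ a, ∑ b, (u a : ℂ) * ((p b : ℂ) * χ (a * b⁻¹)) = n₀ := by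
      rw [Finset.sum_comm]
      have e3 : ∀ b, ∑ a, (u a : ℂ) * ((p b : ℂ) * χ (a * b⁻¹)) = (p b : ℂ) * n₀ := by
        intro b
        rw [← hm' b, Finset.mul_sum]
        exact Finset.sum_congr rfl fun a _ => by ring
      rw [Finset.sum_congr rfl fun b _ => e3 b, ← Finset.sum_mul]
      have e4 : ∑ b, (p b : ℂ) = 1 := by
        rw [← Complex.ofReal_sum, hp1, Complex.ofReal_one]
      rw [e4, one_mul]
    have e4 : ∑ b, (p b : ℂ) = 1 := by
      rw [← Complex.ofReal_sum, hp1, Complex.ofReal_one]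
    have e5 : ∑ b, (u b : ℂ) = 1 := by
      rw [← Complex.ofReal_sum, hu1, Complex.ofReal_one]
    rw [e2, e4, e5]
    ring
  unfold psi qf
  rw [hS, Complex.sub_re, Complex.ofReal_re, one_pow, one_mul]
  have h3 : (∑ a, ∑ b, ((p a * p b : ℝ) : ℂ) * χ (a * b⁻¹)).re ≤ n := by
    refine (Complex.re_le_norm _).trans ?_
    have h4 : ‖∑ a, ∑ b, ((p a * p b : ℝ) : ℂ) * χ (a * b⁻¹)‖ ≤ ∑ a, ∑ b, p a * p b * n := by
      refine (norm_sum_le _ _).trans (Finset.sum_le_sum fun a _ => ?_)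
      refine (norm_sum_le _ _).trans (Finset.sum_le_sum fun b _ => ?_)
      rw [norm_mul, Complex.norm_real, Real.norm_of_nonneg (mul_nonneg (hp0 a) (hp0 b))]
      refine mul_le_mul_of_nonneg_left ?_ (mul_nonneg (hp0 a) (hp0 b))
      rw [← hchar v]
      have h5 := norm_trace_mul_sq (1 : Matrix (Fin n) (Fin n) ℂ)
        (ρ v (a * b⁻¹) : Matrix (Fin n) (Fin n) ℂ)
      have h6 : (ρ v (a * b⁻¹) : Matrix (Fin n) (Fin n) ℂ) *
          (ρ v (a * b⁻¹) : Matrix (Fin n) (Fin n) ℂ)ᴴ = 1 :=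
        Unitary.mul_star_self_of_mem (ρ v (a * b⁻¹)).2
      rw [h6, one_mul, conjTranspose_one, one_mul, trace_one] at h5
      simp only [Fintype.card_fin, Complex.natCast_re] at h5
      have h7 : (n : ℝ) * n = (n : ℝ) ^ 2 := by ring
      rw [h7] at h5
      exact abs_le_of_sq_le_sq' h5 (Nat.cast_nonneg _) |>.2
    refine h4.trans (le_of_eq ?_)
    have h5 : ∀ a, ∑ b, p a * p b * n = p a * n := by
      intro a
      rw [← Finset.sum_mul, ← Finset.mul_sum, hp1, mul_one]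
    rw [Finset.sum_congr rfl fun a _ => h5 a, ← Finset.sum_mul, hp1, one_mul]
  linarith

end

end Pool.Agent.N172.TW
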