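import Pool.Agent.N172.TW.Size

/-! Chains of exceptional pairs of twisted quotients. -/

set_option autoImplicit false
set_option linter.unusedSectionVars false

namespace Pool.Agent.N172.TW

open Complex Filter Topology NumberField IsDedekindDomain Matrix Polynomial
open Pool.Agent.W540.BE Pool.Agent.W353.L1 Pool.Agent.W401.Cheb
open Pool.Agent.H341R2 (lam lam_tendsto)
open Pool.Agent.W353.EF (LFun size)

section
variable {K : Type} [Field K] {A : Type} [Group A] [Fintype A]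
  {act : Gal(AlgebraicClosure K/K) →* MulAut A}

theorem Cocycle.inv_of_ker (c : Cocycle act) {u : GK K} (hu : u ∈ act.ker) :
    c.c u⁻¹ = (c.c u)⁻¹ := by
  have h := c.mul_of_ker hu u⁻¹
  rw [mul_inv_cancel, c.one] at h
  exact (inv_eq_of_mul_eq_one_right h.symm).symm

theorem Cocycle.conj_of_ker (c : Cocycle act) {u : GK K} (hu : u ∈ act.ker) (hc : c.c u = 1)
    (τ : GK K) : c.c (τ * u * τ⁻¹) = 1 := by
  rw [c.mul, c.mul, hc, map_one, mul_one, map_mul, MonoidHom.mem_ker.1 hu, mul_one, ← c.mul,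
    mul_inv_cancel, c.one]

/-- the elements of `V` on which the cocycles of the pair are trivial -/
def next (V : Subgroup (GK K)) (P : Form act × Form act) : Subgroup (GK K) where
  carrier := {σ | σ ∈ V ∧ σ ∈ act.ker ∧ P.1.c σ = 1 ∧ P.2.c σ = 1}
  one_mem' := ⟨V.one_mem, act.ker.one_mem, P.1.one, P.2.one⟩
  mul_mem' := fun {σ τ} h h' => ⟨V.mul_mem h.1 h'.1, act.ker.mul_mem h.2.1 h'.2.1, by
    rw [P.1.mul_of_ker h.2.1, h.2.2.1, h'.2.2.1, one_mul], by
    rw [P.2.mul_of_ker h.2.1, h.2.2.2, h'.2.2.2, one_mul]⟩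
  inv_mem' := fun {σ} h => ⟨V.inv_mem h.1, act.ker.inv_mem h.2.1, by
    rw [P.1.inv_of_ker h.2.1, h.2.2.1, inv_one], by
    rw [P.2.inv_of_ker h.2.1, h.2.2.2, inv_one]⟩

variable (V : Subgroup (GK K)) (P : Form act × Form act)

theorem next_le : next V P ≤ V := fun _ h => h.1

theorem next_triv : TrivOn P (next V P) := ⟨fun _ h => h.2.2.1, fun _ h => h.2.2.2⟩

theorem next_normal (hV : V.Normal) : (next V P).Normal :=
  ⟨fun u hu τ => ⟨hV.conj_mem u hu.1 τ, (inferInstance : act.ker.Normal).conj_mem u hu.2.1 τ,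
    P.1.conj_of_ker hu.2.1 hu.2.2.1 τ, P.2.conj_of_ker hu.2.1 hu.2.2.2 τ⟩⟩

theorem next_open (hV : V ≤ act.ker) (hVo : IsOpen (V : Set (GK K))) :
    IsOpen (next V P : Set (GK K)) := by
  obtain ⟨U₁, h1, h2⟩ := P.1.cont
  obtain ⟨U₂, h3, h4⟩ := P.2.cont
  have h5 : V ⊓ U₁ ⊓ U₂ ≤ next V P := fun σ h => ⟨h.1.1, hV h.1.1, h2 σ h.1.2, h4 σ h.2⟩
  refine Subgroup.isOpen_mono h5 ?_
  exact (hVo.inter h1).inter h3

theorem next_index (hV : V ≤ act.ker) :
    (next V P).index ≤ Nat.card A ^ 2 * V.index := by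
  rw [← Subgroup.relIndex_mul_index (next_le V P)]
  refine Nat.mul_le_mul_right _ ?_
  set f : V →* A × A :=
    { toFun := fun σ => (P.1.c σ.1, P.2.c σ.1)
      map_one' := by
        rw [OneMemClass.coe_one, P.1.one, P.2.one]
        rfl
      map_mul' := fun σ τ => by
        rw [Subgroup.coe_mul, P.1.mul_of_ker (hV σ.2), P.2.mul_of_ker (hV σ.2)]
        rfl } with hf
  have hker : (next V P).subgroupOf V = f.ker := by
    ext σ
    rw [Subgroup.mem_subgroupOf, MonoidHom.mem_ker]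
    constructor
    · intro h
      exact Prod.ext h.2.2.1 h.2.2.2
    · intro h
      exact ⟨σ.2, hV σ.2, congrArg Prod.fst h, congrArg Prod.snd h⟩
  have h1 : (next V P).relIndex V = f.ker.index := by
    rw [← hker]
    rfl
  rw [h1, Subgroup.index_ker]
  have h2 : Nat.card f.range ≤ Nat.card (A × A) := Nat.card_le_card_of_injective _
    Subtype.val_injective
  rwa [Nat.card_prod, ← sq] at h2

end

section
variable {K : Type} [Field K] [NumberField K] {A : Type} [Group A] [Fintype A] {l : ℕ}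
  {X : Set (MvPolynomial (Fin l) (𝓞 K))} {act : Gal(AlgebraicClosure K/K) →* MulAut A}
  {M : A → Matrix (Fin l) (Fin l) (𝓞 (AlgebraicClosure K))} {d : ℕ} {N : ℕ → ℕ}

/-- an exceptional pair -/
def IsExc (H : Coh X act M d N) (i : ℕ) (δ : ℝ) (P : Form act × Form act) : Prop :=
  ∃ m m' E E', IsEuler H P.1 i m E ∧ IsEuler H P.2 i m' E' ∧
    ∀ᶠ ε : ℝ in 𝓝[>] 0, δ ≤ |size i E ε - size i E' ε|

/-- a chain of `m` exceptional pairs -/
def IsChain (H : Coh X act M d N) (i : ℕ) (δ : ℝ) (U₀ : Subgroup (GK K)) (m : ℕ)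
    (V : Subgroup (GK K)) : Prop :=
  ∃ (P : Fin m → Form act × Form act) (U : Fin m → Subgroup (GK K)),
    V.Normal ∧ IsOpen (V : Set (GK K)) ∧ V ≤ U₀ ∧
    V.index ≤ (Nat.card A ^ 2) ^ m * U₀.index ∧
    (∀ k, U k ≤ act.ker) ∧ (∀ k, V ≤ U k) ∧ (∀ j k, j < k → TrivOn (P j) (U k)) ∧
    (∀ k, TrivOn (P k) V) ∧ (∀ k τ, (P k).1.type (U k) τ = (P k).2.type (U k) τ) ∧
    ∀ k, IsExc H i δ (P k)

variable {H : Coh X act M d N} {i : ℕ} {δ : ℝ} {U₀ : Subgroup (GK K)}

theorem chain_zero (hn : U₀.Normal) (ho : IsOpen (U₀ : Set (GK K))) :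
    IsChain H i δ U₀ 0 U₀ :=
  ⟨fun k => k.elim0, fun k => k.elim0, hn, ho, le_rfl, by simp, fun k => k.elim0,
    fun k => k.elim0, fun k => k.elim0, fun k => k.elim0, fun k => k.elim0, fun k => k.elim0⟩

theorem chain_succ (hU₀ : U₀ ≤ act.ker) {m : ℕ} {V : Subgroup (GK K)}
    (h : IsChain H i δ U₀ m V) {Q : Form act × Form act}
    (hQ : ∀ τ, Q.1.type V τ = Q.2.type V τ) (hex : IsExc H i δ Q) :
    IsChain H i δ U₀ (m + 1) (next V Q) := by
  obtain ⟨P, U, h1, h2, h3, h4, h5, h6, h7, h8, h9, h10⟩ := h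
  have hV : V ≤ act.ker := h3.trans hU₀
  refine ⟨Fin.snoc P Q, Fin.snoc U V, next_normal V Q h1, next_open V Q hV h2,
    (next_le V Q).trans h3, ?_, ?_, ?_, ?_, ?_, ?_, ?_⟩
  · refine (next_index V Q hV).trans ?_
    rw [pow_succ (Nat.card A ^ 2) m, mul_comm ((Nat.card A ^ 2) ^ m), mul_assoc]
    exact Nat.mul_le_mul_left _ h4
  · intro k
    refine Fin.lastCases ?_ (fun k => ?_) k
    · simpa using hV
    · simpa using h5 k
  · intro k
    refine Fin.lastCases ?_ (fun k => ?_) k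
    · simpa using next_le V Q
    · simpa using (next_le V Q).trans (h6 k)
  · intro j k
    refine Fin.lastCases ?_ (fun k => ?_) k
    · refine Fin.lastCases ?_ (fun j => ?_) j
      · intro h
        exact absurd h (lt_irrefl _)
      · intro _
        simpa using h8 j
    · refine Fin.lastCases ?_ (fun j => ?_) j
      · intro h
        exact absurd h (not_lt.2 (Fin.le_last _))
      · intro h
        have := h7 j k (by simpa using h)
        simpa using this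
  · intro k
    refine Fin.lastCases ?_ (fun k => ?_) k
    · simpa using next_triv V Q
    · simpa using (h8 k).mono (next_le V Q)
  · intro k
    refine Fin.lastCases ?_ (fun k => ?_) k
    · simpa using hQ
    · simpa using h9 k
  · intro k
    refine Fin.lastCases ?_ (fun k => ?_) k
    · simpa using hex
    · simpa using h10 k

/-- `n₀` is the dimension of the invariants of `A` in `H^i(X)` -/
def IsInv (H : Coh X act M d N) (i n₀ : ℕ) : Prop :=
  ∑ᶠ a, H.χ i a = Nat.card A * n₀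

theorem IsInv.eq {n₀ : ℕ} (h : IsInv H i n₀) :
    ((Fintype.card A : ℂ))⁻¹ * ∑ a, H.χ i a = ((n₀ : ℝ) : ℂ) := by
  unfold IsInv at h
  rw [finsum_eq_sum_of_fintype, Nat.card_eq_fintype_card] at h
  rw [h, ← mul_assoc, inv_mul_cancel₀ card_ne, one_mul]
  push_cast
  rfl

theorem Coh.isFrob (H : Coh X act M d N) (v : HeightOneSpectrum (𝓞 K)) : IsFrob v (H.σ v) :=
  ⟨H.Q v, H.max v, H.above v, H.frob v⟩

theorem chain_bound (hδ : 0 < δ) {n₀ : ℕ} (hn₀ : IsInv H i n₀) {m : ℕ}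
    {V : Subgroup (GK K)} (h : IsChain H i δ U₀ m V) :
    m ≤ ⌊(2 * ((N i : ℝ) - n₀)) ^ 2 / δ ^ 2⌋₊ := by
  obtain ⟨P, U, h1, h2, h3, h4, h5, h6, h7, h8, h9, h10⟩ := h
  choose r r' E E' hE hE' hex using h10
  refine Nat.le_floor ?_
  rw [le_div_iff₀ (by positivity)]
  refine le_of_forall_pos_le_add fun η hη => ?_
  have h11 := chain_bessel (fun v a => H.comm v i a) (fun v a => H.char v i a) hn₀.eq
    (fun τ a => H.gal i τ a) (H.isFrob) P U h2 h5 h6 h7 h8 h9
    (fun k ε => size i (E k) ε - size i (E' k) ε) (fun k => size_pair (hE k) (hE' k)) hη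
  have h12 : ∀ᶠ ε : ℝ in 𝓝[>] 0, ∀ k, δ ≤ |size i (E k) ε - size i (E' k) ε| := by
    rw [Filter.eventually_all]
    exact hex
  obtain ⟨ε, h13, h14⟩ := (h11.and h12).exists
  refine le_trans ?_ h13
  calc (m : ℝ) * δ ^ 2 = ∑ _k : Fin m, δ ^ 2 := by
        rw [Finset.sum_const, Finset.card_univ, Fintype.card_fin, nsmul_eq_mul]
    _ ≤ ∑ k : Fin m, (size i (E k) ε - size i (E' k) ε) ^ 2 := by
        refine Finset.sum_le_sum fun k _ => ?_
        rw [← sq_abs (size i (E k) ε - size i (E' k) ε)]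
        exact pow_le_pow_left₀ hδ.le (h14 k) 2

/-- **The subgroup.** -/
theorem exists_subgroup (hU₀ : U₀ ≤ act.ker) (hn : U₀.Normal) (ho : IsOpen (U₀ : Set (GK K)))
    (hδ : 0 < δ) {n₀ : ℕ} (hn₀ : IsInv H i n₀) :
    ∃ V : Subgroup (GK K), V.Normal ∧ IsOpen (V : Set (GK K)) ∧ V ≤ U₀ ∧
      V.index ≤ (Nat.card A ^ 2) ^ ⌊(2 * ((N i : ℝ) - n₀)) ^ 2 / δ ^ 2⌋₊ * U₀.index ∧
      ∀ Q : Form act × Form act, (∀ τ, Q.1.type V τ = Q.2.type V τ) → ¬ IsExc H i δ Q := by
  classical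
  set P : ℕ → Prop := fun m => ∃ V, IsChain H i δ U₀ m V with hP
  obtain ⟨m, ⟨V, hV⟩, hmax⟩ : ∃ m, P m ∧ ¬ P (m + 1) := by
    by_contra hcon
    push Not at hcon
    have h1 : ∀ m, P m := by
      intro m
      induction m with
      | zero => exact ⟨U₀, chain_zero hn ho⟩
      | succ m ih => exact hcon m ih
    obtain ⟨V, hV⟩ := h1 (⌊(2 * ((N i : ℝ) - n₀)) ^ 2 / δ ^ 2⌋₊ + 1)
    have := chain_bound hδ hn₀ hV
    omega
  have hm := chain_bound hδ hn₀ hV
  refine ⟨V, ?_⟩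
  have hnew : ∀ Q : Form act × Form act, (∀ τ, Q.1.type V τ = Q.2.type V τ) →
      ¬ IsExc H i δ Q := fun Q hQ hex => hmax ⟨_, chain_succ hU₀ hV hQ hex⟩
  obtain ⟨-, -, h1, h2, h3, h4, -⟩ := hV
  refine ⟨h1, h2, h3, h4.trans ?_, hnew⟩
  exact Nat.mul_le_mul_right _ (Nat.pow_le_pow_right (pow_pos Nat.card_pos 2) hm)

end

end Pool.Agent.N172.TW
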