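import Pool.Agent.N172.TW.Mean
import Pool.Agent.Y149.WR.Core

/-! The correlations of two pairs of twisted quotients. -/

set_option autoImplicit false
set_option linter.unusedSectionVars false

namespace Pool.Agent.N172.TW

open Complex Filter Topology NumberField IsDedekindDomain
open Pool.Agent.W540.BE Pool.Agent.W353.L1 Pool.Agent.W401.Cheb
open Pool.Agent.H341R2 (lam lam_tendsto)
open Pool.Agent.Y149.WR (cheb_hom)

section
variable {A : Type} [Group A] [Fintype A]

/-- the quadratic form given by a class function -/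
noncomputable def qf (χ : A → ℂ) (f g : A → ℝ) : ℝ :=
  (∑ a, ∑ b, ((f a * g b : ℝ) : ℂ) * χ (a * b⁻¹)).re

theorem qf_sum_right {χ : A → ℂ} {ι : Type*} (s : Finset ι) (f : A → ℝ) (g : ι → A → ℝ) :
    qf χ f (fun a => ∑ i ∈ s, g i a) = ∑ i ∈ s, qf χ f (g i) := by
  unfold qf
  rw [← Complex.re_sum]
  congr 1
  have h : ∀ a b : A, ((f a * ∑ i ∈ s, g i b : ℝ) : ℂ) * χ (a * b⁻¹) =
      ∑ i ∈ s, ((f a * g i b : ℝ) : ℂ) * χ (a * b⁻¹) := by
    intro a b
    rw [Finset.mul_sum]
    push_cast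
    rw [Finset.sum_mul]
  simp only [h]
  have e1 : ∀ a : A, ∑ b : A, ∑ i ∈ s, ((f a * g i b : ℝ) : ℂ) * χ (a * b⁻¹) =
      ∑ i ∈ s, ∑ b : A, ((f a * g i b : ℝ) : ℂ) * χ (a * b⁻¹) := fun a => Finset.sum_comm
  simp only [e1]
  exact Finset.sum_comm

theorem qf_sum_sum {χ : A → ℂ} {ι : Type*} (s : Finset ι) (c : ι → ℝ) (f : ι → A → ℝ) :
    qf χ (fun a => ∑ i ∈ s, c i * f i a) (fun a => ∑ i ∈ s, c i * f i a) =
      ∑ i ∈ s, ∑ j ∈ s, (c i * c j) * qf χ (f i) (f j) := by
  unfold qf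
  have h : ∀ a b : A, (((∑ i ∈ s, c i * f i a) * (∑ i ∈ s, c i * f i b) : ℝ) : ℂ) *
      χ (a * b⁻¹) = ∑ i ∈ s, ∑ j ∈ s, ((c i * c j : ℝ) : ℂ) *
        (((f i a * f j b : ℝ) : ℂ) * χ (a * b⁻¹)) := by
    intro a b
    rw [Finset.sum_mul_sum]
    push_cast
    rw [Finset.sum_mul]
    refine Finset.sum_congr rfl fun i _ => ?_
    rw [Finset.sum_mul]
    exact Finset.sum_congr rfl fun j _ => by ring
  simp only [h]
  have h2 : ∑ a : A, ∑ b : A, ∑ i ∈ s, ∑ j ∈ s, ((c i * c j : ℝ) : ℂ) *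
      (((f i a * f j b : ℝ) : ℂ) * χ (a * b⁻¹)) =
      ∑ i ∈ s, ∑ j ∈ s, ((c i * c j : ℝ) : ℂ) *
        ∑ a : A, ∑ b : A, (((f i a * f j b : ℝ) : ℂ) * χ (a * b⁻¹)) := by
    have e1 : ∀ a : A, ∑ b : A, ∑ i ∈ s, ∑ j ∈ s, ((c i * c j : ℝ) : ℂ) *
        (((f i a * f j b : ℝ) : ℂ) * χ (a * b⁻¹)) = ∑ i ∈ s, ∑ j ∈ s, ∑ b : A,
          ((c i * c j : ℝ) : ℂ) * (((f i a * f j b : ℝ) : ℂ) * χ (a * b⁻¹)) := by
      intro a
      rw [Finset.sum_comm]
      exact Finset.sum_congr rfl fun i _ => Finset.sum_comm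
    simp only [e1]
    rw [Finset.sum_comm]
    refine Finset.sum_congr rfl fun i _ => ?_
    rw [Finset.sum_comm]
    refine Finset.sum_congr rfl fun j _ => ?_
    rw [Finset.mul_sum]
    exact Finset.sum_congr rfl fun a _ => by rw [Finset.mul_sum]
  rw [h2, Complex.re_sum]
  refine Finset.sum_congr rfl fun i _ => ?_
  rw [Complex.re_sum]
  exact Finset.sum_congr rfl fun j _ => by rw [Complex.re_ofReal_mul]

theorem qf_zero_right {χ : A → ℂ} (f : A → ℝ) : qf χ f (fun _ => 0) = 0 := by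
  unfold qf
  simp

theorem qf_comp {χ : A → ℂ} (f g : A → ℝ) (β : MulAut A) (hβ : ∀ a, χ (β a) = χ a)
    {f' g' : A → ℝ} (hf : ∀ a, f' (β a) = f a) (hg : ∀ a, g' (β a) = g a) :
    qf χ f' g' = qf χ f g := by
  unfold qf
  congr 1
  symm
  refine Fintype.sum_equiv β.toEquiv _ _ fun a => ?_
  refine Fintype.sum_equiv β.toEquiv _ _ fun b => ?_
  have e : (β.toEquiv a : A) = β a := rfl
  have e' : (β.toEquiv b : A) = β b := rfl
  rw [e, e', hf, hg, ← map_inv, ← map_mul, hβ]

theorem abs_qf_le {χ : A → ℂ} {C : ℝ} (hC : ∀ a, ‖χ a‖ ≤ C) (f g : A → ℝ) :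
    |qf χ f g| ≤ (∑ a, |f a|) * (∑ a, |g a|) * C := by
  unfold qf
  refine (Complex.abs_re_le_norm _).trans ?_
  rw [Finset.sum_mul_sum, Finset.sum_mul]
  refine (norm_sum_le _ _).trans (Finset.sum_le_sum fun a _ => ?_)
  rw [Finset.sum_mul]
  refine (norm_sum_le _ _).trans (Finset.sum_le_sum fun b _ => ?_)
  rw [norm_mul, Complex.norm_real, Real.norm_eq_abs, abs_mul]
  exact mul_le_mul_of_nonneg_left (hC _) (by positivity)

end

section
variable {K : Type} [Field K] {A : Type} [Group A] [Fintype A]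
  {act : Gal(AlgebraicClosure K/K) →* MulAut A}

/-- the difference of the distributions of a pair -/
noncomputable def nu (P : Form act × Form act) (σ : GK K) (x : A) : ℝ :=
  P.1.mu σ x - P.2.mu σ x

/-- the same after averaging -/
noncomputable def nua (P : Form act × Form act) (σ : GK K) : A → ℝ :=
  sm (act σ) (nu P σ)

theorem sum_nu (P : Form act × Form act) (σ : GK K) : ∑ x, nu P σ x = 0 := by
  unfold nu
  rw [Finset.sum_sub_distrib, P.1.sum_mu, P.2.sum_mu, sub_self]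

theorem abs_nu (P : Form act × Form act) (σ : GK K) : ∑ x, |nu P σ x| ≤ 2 := by
  have h : ∀ x, |nu P σ x| ≤ P.1.mu σ x + P.2.mu σ x := by
    intro x
    unfold nu
    have h1 := P.1.mu_nonneg σ x
    have h2 := P.2.mu_nonneg σ x
    rw [abs_le]
    constructor <;> linarith
  refine (Finset.sum_le_sum fun x _ => h x).trans (le_of_eq ?_)
  rw [Finset.sum_add_distrib, P.1.sum_mu, P.2.sum_mu]
  norm_num

theorem sum_nua (P : Form act × Form act) (σ : GK K) : ∑ x, nua P σ x = 0 := by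
  unfold nua
  rw [sum_sm, sum_nu]

theorem abs_nua (P : Form act × Form act) (σ : GK K) : ∑ x, |nua P σ x| ≤ 2 :=
  (abs_sm _ _).trans (abs_nu P σ)

theorem nua_conj (P : Form act × Form act) (τ σ : GK K) (x : A) :
    nua P (τ * σ * τ⁻¹) (act τ x) = nua P σ x := by
  unfold nua nu
  rw [sm_sub, sm_sub, P.1.sm_conj, P.2.sm_conj]

/-- the cocycles of the pair are trivial on a subgroup -/
def TrivOn (P : Form act × Form act) (V : Subgroup (GK K)) : Prop :=
  (∀ u ∈ V, P.1.c u = 1) ∧ ∀ u ∈ V, P.2.c u = 1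

theorem TrivOn.mono {P : Form act × Form act} {V U : Subgroup (GK K)} (h : TrivOn P U)
    (hVU : V ≤ U) : TrivOn P V := ⟨fun u hu => h.1 u (hVU hu), fun u hu => h.2 u (hVU hu)⟩

theorem nu_left {P : Form act × Form act} {V : Subgroup (GK K)} (h : TrivOn P V)
    (hV : V ≤ act.ker) {u : GK K} (hu : u ∈ V) (σ : GK K) : nu P (u * σ) = nu P σ := by
  funext x
  unfold nu
  rw [P.1.mu_left (hV hu) (h.1 u hu), P.2.mu_left (hV hu) (h.2 u hu)]

theorem act_left {V : Subgroup (GK K)} (hV : V ≤ act.ker) {u : GK K} (hu : u ∈ V) (σ : GK K) :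
    act (u * σ) = act σ := by
  rw [map_mul, MonoidHom.mem_ker.1 (hV hu), one_mul]

theorem nua_left {P : Form act × Form act} {V : Subgroup (GK K)} (h : TrivOn P V)
    (hV : V ≤ act.ker) {u : GK K} (hu : u ∈ V) (σ : GK K) : nua P (u * σ) = nua P σ := by
  unfold nua
  rw [nu_left h hV hu, act_left hV hu]

/-- the correlation of two pairs -/
noncomputable def psi (χ : A → ℂ) (P P' : Form act × Form act) (σ : GK K) : ℝ :=
  qf χ (nua P σ) (nua P' σ)

variable {χ : A → ℂ} {P P' : Form act × Form act}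

theorem psi_conj (hχ : ∀ τ a, χ (act τ a) = χ a) (τ σ : GK K) :
    psi χ P P' (τ * σ * τ⁻¹) = psi χ P P' σ :=
  qf_comp _ _ (act τ) (hχ τ) (fun a => nua_conj P τ σ a) fun a => nua_conj P' τ σ a

variable {V : Subgroup (GK K)} [V.Normal]

theorem psi_left (h : TrivOn P V) (h' : TrivOn P' V) (hV : V ≤ act.ker) {u : GK K} (hu : u ∈ V)
    (σ : GK K) : psi χ P P' (u * σ) = psi χ P P' σ := by
  unfold psi
  rw [nua_left h hV hu, nua_left h' hV hu]

theorem psi_mk (h : TrivOn P V) (h' : TrivOn P' V) (hV : V ≤ act.ker) {σ τ : GK K}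
    (hmk : (QuotientGroup.mk σ : GK K ⧸ V) = QuotientGroup.mk τ) :
    psi χ P P' σ = psi χ P P' τ := by
  have h1 := QuotientGroup.eq.1 hmk
  have h2 : τ = (σ * (σ⁻¹ * τ) * σ⁻¹) * σ := by group
  rw [h2, psi_left h h' hV ((inferInstance : V.Normal).conj_mem _ h1 σ)]

variable [Fintype (GK K ⧸ V)]

/-- **The correlations vanish.** -/
theorem psi_mean {U : Subgroup (GK K)} (hU : U ≤ act.ker) (hVU : V ≤ U) (h : TrivOn P U)
    (h' : TrivOn P' V) (ht : ∀ σ, P'.1.type U σ = P'.2.type U σ) :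
    ∑ q : GK K ⧸ V, psi χ P P' q.out = 0 := by
  classical
  set S := ∑ q : GK K ⧸ V, psi χ P P' q.out with hS
  have hfin : Fintype (U.map (QuotientGroup.mk' V)) := Fintype.ofFinite _
  have hV : V ≤ act.ker := hVU.trans hU
  have h1 : ∀ u : U.map (QuotientGroup.mk' V),
      ∑ q : GK K ⧸ V, psi χ P P' (u.1.out * q.out) = S := by
    intro u
    refine Fintype.sum_equiv (Equiv.mulLeft u.1) _ _ fun q => ?_
    refine psi_mk (h.mono hVU) h' hV ?_
    rw [QuotientGroup.mk_mul, QuotientGroup.out_eq', QuotientGroup.out_eq',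
      QuotientGroup.out_eq']
    rfl
  have h2 : ∀ σ : GK K, ∑ u : U.map (QuotientGroup.mk' V), psi χ P P' (u.1.out * σ) = 0 := by
    intro σ
    unfold psi
    have e1 : ∀ u : U.map (QuotientGroup.mk' V), nua P (u.1.out * σ) = nua P σ := fun u =>
      nua_left h hU (out_mem hVU u) σ
    simp only [e1]
    rw [← qf_sum_right]
    have e2 : (fun a => ∑ u : U.map (QuotientGroup.mk' V), nua P' (u.1.out * σ) a) =
        fun _ => 0 := by
      funext a
      unfold nua
      have e3 : ∀ u : U.map (QuotientGroup.mk' V), act (u.1.out * σ) = act σ := fun u =>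
        act_left hU (out_mem hVU u) σ
      simp only [e3]
      rw [← sm_sum]
      have e4 : (fun y => ∑ u : U.map (QuotientGroup.mk' V), nu P' (u.1.out * σ) y) =
          fun _ => 0 := by
        funext y
        unfold nu
        rw [Finset.sum_sub_distrib]
        have e5 := gg_type P'.1 P'.2 hU hVU h'.1 h'.2 (ht σ) y
        unfold Form.gg at e5
        rw [finsum_eq_sum_of_fintype, finsum_eq_sum_of_fintype] at e5
        rw [e5, sub_self]
      rw [e4]
      unfold sm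
      simp
    rw [e2, qf_zero_right]
  have h3 : (Fintype.card (U.map (QuotientGroup.mk' V)) : ℝ) * S = 0 := by
    calc (Fintype.card (U.map (QuotientGroup.mk' V)) : ℝ) * S
        = ∑ _u : U.map (QuotientGroup.mk' V), S := by
          rw [Finset.sum_const, Finset.card_univ, nsmul_eq_mul]
      _ = ∑ u : U.map (QuotientGroup.mk' V), ∑ q : GK K ⧸ V,
            psi χ P P' (u.1.out * q.out) := Finset.sum_congr rfl fun u _ => (h1 u).symm
      _ = 0 := by
          rw [Finset.sum_comm]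
          exact Finset.sum_eq_zero fun q _ => h2 _
  rcases mul_eq_zero.1 h3 with h4 | h4
  · exact absurd h4 (by exact_mod_cast Fintype.card_ne_zero)
  · exact h4

end

section
variable {K : Type} [Field K] [NumberField K] {A : Type} [Group A] [Fintype A]
  {act : Gal(AlgebraicClosure K/K) →* MulAut A} {χ : A → ℂ} {P P' : Form act × Form act}

/-- **The correlations at the edge.** -/
theorem psi_edge (hχ : ∀ τ a, χ (act τ a) = χ a) {V U : Subgroup (GK K)} [V.Normal]
    (hVo : IsOpen (V : Set (GK K))) (hU : U ≤ act.ker) (hVU : V ≤ U) (h : TrivOn P U)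
    (h' : TrivOn P' V) (ht : ∀ σ, P'.1.type U σ = P'.2.type U σ)
    (σ : HeightOneSpectrum (𝓞 K) → GK K) (hσ : ∀ v, IsFrob v (σ v)) :
    Tendsto (fun ε : ℝ => (EP (nm K) ε fun v => psi χ P P' (σ v)) / lam ε) (𝓝[>] 0) (𝓝 0) := by
  classical
  have hfi : Finite (GK K ⧸ V) := Subgroup.quotient_finite_of_isOpen V hVo
  have hft : Fintype (GK K ⧸ V) := Fintype.ofFinite _
  have hV : V ≤ act.ker := hVU.trans hU
  have h1 := cheb_hom (QuotientGroup.mk' V) (by
      rw [QuotientGroup.ker_mk']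
      exact hVo) (QuotientGroup.mk'_surjective V) (fun q => psi χ P P' q.out) (fun a g => by
      have e1 : (QuotientGroup.mk (g * a * g⁻¹).out : GK K ⧸ V) =
          QuotientGroup.mk (g.out * a.out * g.out⁻¹) := by
        rw [QuotientGroup.out_eq', QuotientGroup.mk_mul, QuotientGroup.mk_mul,
          QuotientGroup.mk_inv, QuotientGroup.out_eq', QuotientGroup.out_eq']
      rw [psi_mk (h.mono hVU) h' hV e1, psi_conj hχ]) σ hσ
  rw [psi_mean hU hVU h h' ht, mul_zero] at h1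
  refine h1.congr fun ε => ?_
  congr 2
  funext v
  exact psi_mk (h.mono hVU) h' hV (QuotientGroup.out_eq' _)

end

end Pool.Agent.N172.TW
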