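import Pool.Agent.Y149.Ord

/-!
# Twists by a finite group of automorphisms and their quotients: definitions

`X` is a smooth projective variety of dimension `d` over a number field `K`, given by homogeneous
equations with coefficients in `𝓞 K`, and `A` is a finite group of automorphisms of `X` over the
algebraic closure of `K` which is stable under the absolute Galois group `Gal`; the automorphisms are
induced by projective linear maps (every finite group of automorphisms is of this kind in a suitable
projective embedding).  `act` is the action of `Gal` on `A`.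

A continuous cocycle `c : Gal → A` gives the twist `X_c` of `X`: this is the variety over `K` which is
equal to `X` over the algebraic closure, where `σ ∈ Gal` acts on the points by `x ↦ c(σ) (σ x)`.
-/

set_option autoImplicit false

namespace Pool.Agent.N172.TW

open NumberField IsDedekindDomain Filter Topology Polynomial Matrix
open Pool.Agent.W353.EF (LFun size)

section
variable {K : Type} [Field K] {A : Type} [Group A]

/-- A continuous cocycle of the absolute Galois group of `K` with values in the finite group `A`, on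
which it acts by `act`.  It gives the twist `X_c`. -/
structure Cocycle (act : Gal(AlgebraicClosure K/K) →* MulAut A) where
  c : Gal(AlgebraicClosure K/K) → A
  mul : ∀ σ τ, c (σ * τ) = c σ * act σ (c τ)
  cont : ∃ U : Subgroup Gal(AlgebraicClosure K/K), IsOpen (U : Set Gal(AlgebraicClosure K/K)) ∧
    ∀ u ∈ U, c u = 1

/-- The quotient `X_c / B` of a twist by a subgroup `B` of `A` which is defined over `K` as a group of
automorphisms of `X_c`, that is, stable under the twisted action `b ↦ c(σ) σ(b) c(σ)⁻¹` of `Gal`. -/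
structure Form (act : Gal(AlgebraicClosure K/K) →* MulAut A) extends Cocycle act where
  B : Subgroup A
  stable : ∀ σ b, c σ * act σ b * (c σ)⁻¹ ∈ B ↔ b ∈ B

variable {act : Gal(AlgebraicClosure K/K) →* MulAut A}

/-- The twist `X_c` itself. -/
def Cocycle.form (c : Cocycle act) : Form act where
  toCocycle := c
  B := ⊥
  stable σ b := by
    rw [Subgroup.mem_bot, Subgroup.mem_bot, mul_inv_eq_one, mul_eq_left]
    exact map_eq_one_iff _ (act σ).injective

variable (act) in
/-- The quotient `X / A`. -/
def quotientForm : Form act where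
  c _ := 1
  mul σ τ := by simp
  cont := ⟨⊤, isOpen_univ, fun _ _ => rfl⟩
  B := ⊤
  stable σ b := by simp

/-- The type of `X_c / B` over the fixed field of the subgroup `U` of `Gal`: the function which maps
`σ` to the subset `B c(Uσ)` of `A`.  For an open normal subgroup `U` it depends only on the class of
`σ` in the finite group `Gal / U`, so there are only finitely many types. -/
def Form.type (F : Form act) (U : Subgroup Gal(AlgebraicClosure K/K))
    (σ : Gal(AlgebraicClosure K/K)) : Set A :=
  {a | ∃ b ∈ F.B, ∃ u ∈ U, a = b * F.c (u * σ)}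

/-- `X_c / B` and `X_{c'} / B'` have the same type over the field `M`. -/
def SameType (M : IntermediateField K (AlgebraicClosure K)) (F F' : Form act) : Prop :=
  ∀ σ, F.type M.fixingSubgroup σ = F'.type M.fixingSubgroup σ

/-- Let `V` be the space of the algebraic cycles of a given codimension on `X` over the algebraic
closure (with coefficients in the field `k`, modulo homological equivalence), with the action `R` of
the automorphisms in `A` and of the absolute Galois group.  The cycles on `X_c / B` are the elements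
of `V` fixed by `B` and by the twisted action `σ ↦ R (c(σ), σ)` of `Gal`. -/
def Form.cycles {k V : Type} [Field k] [AddCommGroup V] [Module k V]
    (R : Representation k (A ⋊[act] Gal(AlgebraicClosure K/K)) V) (F : Form act) :
    Submodule k V where
  carrier := {x | (∀ b ∈ F.B, R (SemidirectProduct.inl b) x = x) ∧ ∀ σ, R ⟨F.c σ, σ⟩ x = x}
  zero_mem' := ⟨fun _ _ => map_zero _, fun _ => map_zero _⟩
  add_mem' := fun hx hy => ⟨fun b hb => by rw [map_add, hx.1 b hb, hy.1 b hb],
    fun σ => by rw [map_add, hx.2 σ, hy.2 σ]⟩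
  smul_mem' := fun t x hx => ⟨fun b hb => by rw [map_smul, hx.1 b hb],
    fun σ => by rw [map_smul, hx.2 σ]⟩

end

section
variable {K : Type} [Field K] [NumberField K] {A : Type} [Group A] {l : ℕ}

/-- The matrices `M a` with algebraic integers as entries give the action of the group `A` on `X` over
the algebraic closure (they are determined up to factors), and the Galois group acts on `A` by
`act`. -/
structure IsAction (X : Set (MvPolynomial (Fin l) (𝓞 K)))
    (act : Gal(AlgebraicClosure K/K) →* MulAut A)
    (M : A → Matrix (Fin l) (Fin l) (𝓞 (AlgebraicClosure K))) : Prop where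
  one : M 1 = 1
  mul : ∀ a b, ∃ x y : 𝓞 (AlgebraicClosure K), x ≠ 0 ∧ y ≠ 0 ∧ x • (M a * M b) = y • M (a * b)
  gal : ∀ σ a, ∃ x y : 𝓞 (AlgebraicClosure K), x ≠ 0 ∧ y ≠ 0 ∧
    x • (M a).map (fun z => σ • z) = y • M (act σ a)
  maps : ∀ (a : A) (u : Fin l → 𝓞 (AlgebraicClosure K)),
    (∀ f ∈ X, MvPolynomial.eval₂ (algebraMap (𝓞 K) (𝓞 (AlgebraicClosure K))) u f = 0) →
    ∀ f ∈ X, MvPolynomial.eval₂ (algebraMap (𝓞 K) (𝓞 (AlgebraicClosure K))) (M a *ᵥ u) f = 0

/-- Let `Q` be a maximal ideal of the ring of all algebraic integers and `Ω` its residue field, which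
is algebraically closed.  The number of the nonzero solutions `u` of the equations of `X` in `Ω` with
`u ^ q = M u`; for invertible `M` and a power `q` of the characteristic this is `(q - 1)` times the
number of the points `x` of `X` over `Ω` with `x ^ q = M x` (as points of the projective space). -/
noncomputable def points (X : Set (MvPolynomial (Fin l) (𝓞 K)))
    (Q : Ideal (𝓞 (AlgebraicClosure K)))
    (M : Matrix (Fin l) (Fin l) (𝓞 (AlgebraicClosure K))) (q : ℕ) : ℕ :=
  Nat.card {u : Fin l → 𝓞 (AlgebraicClosure K) ⧸ Q // u ≠ 0 ∧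
    (∀ f ∈ X, MvPolynomial.eval₂ ((Ideal.Quotient.mk Q).comp
      (algebraMap (𝓞 K) (𝓞 (AlgebraicClosure K)))) u f = 0) ∧
    ∀ j, u j ^ q = ∑ k, Ideal.Quotient.mk Q (M j k) * u k}

/-- The cohomology of `X` with the action of `A` and of the Frobenius elements.  For every prime `v`
of `K` with `q` elements in the residue field a maximal ideal `Q v` above `v` of the ring of all
algebraic integers and a Frobenius element `σ v` for it are chosen.  `H^k(X)`, of dimension `N k`, is
given at `v` by a unitary representation `ρ v k` of `A`, whose character `χ k` does not depend on `v`,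
and a unitary operator `W v k`, which is `q ^ (k/2)` times the action of `σ v`, so that the geometric
Frobenius is `q ^ (k/2) (W v k)⁻¹`.  The compatibility of the two actions is `comm`.  At almost all
primes the traces of `b F ^ e`, `F` the geometric Frobenius, are integers and the formula of Lefschetz
holds for the number of the points `x` with `F ^ e x = b x`, `e ≥ 1`, `b ∈ A`.

By the theorem of Deligne every smooth projective variety with a group of automorphisms gives such
data: `ρ v k`, `W v k` is the semisimplification of the `ℓ`-adic cohomology, for an isomorphism of the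
closure of `ℚ_ℓ` with `ℂ`; a power of `W v k` commutes with `A` and its eigenvalues have absolute
value one, so there is an invariant Hermitian form. -/
structure Coh (X : Set (MvPolynomial (Fin l) (𝓞 K)))
    (act : Gal(AlgebraicClosure K/K) →* MulAut A)
    (M : A → Matrix (Fin l) (Fin l) (𝓞 (AlgebraicClosure K))) (d : ℕ) (N : ℕ → ℕ) where
  isAction : IsAction X act M
  Q : HeightOneSpectrum (𝓞 K) → Ideal (𝓞 (AlgebraicClosure K))
  σ : HeightOneSpectrum (𝓞 K) → Gal(AlgebraicClosure K/K)
  max : ∀ v, (Q v).IsMaximal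
  above : ∀ v, (Q v).comap (algebraMap (𝓞 K) (𝓞 (AlgebraicClosure K))) = v.asIdeal
  frob : ∀ v, ∀ x : 𝓞 (AlgebraicClosure K), σ v • x - x ^ Ideal.absNorm v.asIdeal ∈ Q v
  ρ : HeightOneSpectrum (𝓞 K) → ∀ k, A →* unitaryGroup (Fin (N k)) ℂ
  W : HeightOneSpectrum (𝓞 K) → ∀ k, unitaryGroup (Fin (N k)) ℂ
  comm : ∀ v k a, W v k * ρ v k a = ρ v k (act (σ v) a) * W v k
  χ : ℕ → A → ℂ
  char : ∀ v k a, trace (ρ v k a : Matrix (Fin (N k)) (Fin (N k)) ℂ) = χ k a
  gal : ∀ k τ a, χ k (act τ a) = χ k a
  int : ∀ᶠ v in cofinite, ∀ (k : ℕ) (b : A) (e : ℕ), 1 ≤ e → ∃ z : ℤ,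
    ((((Ideal.absNorm v.asIdeal : ℝ) ^ ((k : ℝ) / 2)) ^ e : ℝ) : ℂ) *
      trace ((ρ v k b * (W v k)⁻¹ ^ e : unitaryGroup (Fin (N k)) ℂ) :
        Matrix (Fin (N k)) (Fin (N k)) ℂ) = z
  lefschetz : ∀ᶠ v in cofinite, ∀ (b : A) (e : ℕ), 1 ≤ e →
    (points X (Q v) (M b) (Ideal.absNorm v.asIdeal ^ e) : ℂ) =
      ((Ideal.absNorm v.asIdeal : ℂ) ^ e - 1) * ∑ k ∈ Finset.range (2 * d + 1), (-1 : ℂ) ^ k *
        (((((Ideal.absNorm v.asIdeal : ℝ) ^ ((k : ℝ) / 2)) ^ e : ℝ) : ℂ) *
          trace ((ρ v k b * (W v k)⁻¹ ^ e : unitaryGroup (Fin (N k)) ℂ) :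
            Matrix (Fin (N k)) (Fin (N k)) ℂ))

variable {X : Set (MvPolynomial (Fin l) (𝓞 K))} {act : Gal(AlgebraicClosure K/K) →* MulAut A}
  {M : A → Matrix (Fin l) (Fin l) (𝓞 (AlgebraicClosure K))} {d : ℕ} {N : ℕ → ℕ}

/-- The polynomials `E v` are the Euler factors of `L(H^i(X_c / B), s)`, where `H^i(X_c / B)`, of
dimension `m`, is the space of the `B`-invariants of `H^i(X)`, on which the Frobenius element `σ` at
`v` acts by the product of the actions of `c(σ) ∈ A` and of `σ`: for almost all primes `v`,
`E_v(z) = ∏ (1 - δ_j z)` for the eigenvalues `δ_j` of the geometric Frobenius, the complex numbers of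
absolute value `q ^ (i/2)` such that for all `e ≥ 1` the sum of the `δ_j ^ e` is the trace of the
`e`-th power of the geometric Frobenius on the `B`-invariants.  At the other primes `E v` is an
arbitrary polynomial, and no factor `1 / E_v(q ^ {-s})` has a pole at `s = i/2 + 1`. -/
def IsEuler (H : Coh X act M d N) (F : Form act) (i m : ℕ)
    (E : HeightOneSpectrum (𝓞 K) → ℂ[X]) : Prop :=
  (∀ᶠ v in cofinite, ∃ δ : Fin m → ℂ,
    (∀ j, ‖δ j‖ = (Ideal.absNorm v.asIdeal : ℝ) ^ ((i : ℝ) / 2)) ∧
    (∀ e : ℕ, 1 ≤ e → ∑ j, δ j ^ e = (Nat.card F.B : ℂ)⁻¹ * ∑ᶠ b : F.B,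
      ((((Ideal.absNorm v.asIdeal : ℝ) ^ ((i : ℝ) / 2)) ^ e : ℝ) : ℂ) *
        trace ((H.ρ v i b * (H.ρ v i (F.c (H.σ v)) * H.W v i)⁻¹ ^ e :
          unitaryGroup (Fin (N i)) ℂ) : Matrix (Fin (N i)) (Fin (N i)) ℂ)) ∧
    ∀ z : ℂ, (E v).eval z = ∏ j, (1 - δ j * z)) ∧
  ∀ v, (E v).eval ((Ideal.absNorm v.asIdeal : ℂ) ^ (-((i : ℂ) / 2 + 1))) ≠ 0

/-- The quotient `X / A` has only algebraic cohomology classes over `K` in degree `i`, as far as the
Frobenius elements can see it: for almost all primes the geometric Frobenius acts on the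
`A`-invariants of `H^i(X)` as the multiplication by `q ^ (i/2)`. -/
def IsAlgebraic (H : Coh X act M d N) (i : ℕ) : Prop :=
  ∀ᶠ v in cofinite, (H.W v i : Matrix (Fin (N i)) (Fin (N i)) ℂ) *
    ∑ᶠ a, (H.ρ v i a : Matrix (Fin (N i)) (Fin (N i)) ℂ) =
      ∑ᶠ a, (H.ρ v i a : Matrix (Fin (N i)) (Fin (N i)) ℂ)

end

end Pool.Agent.N172.TW
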