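import Pool.Agent.N172.TW.Chain
import Pool.Agent.Y149.WR.Fin

/-! One field for all twisted quotients. -/

set_option autoImplicit false
set_option linter.unusedSectionVars false

namespace Pool.Agent.N172.TW

open Complex Filter Topology NumberField IsDedekindDomain Matrix Polynomial
open Pool.Agent.W540.BE Pool.Agent.W353.L1 Pool.Agent.W401.Cheb
open Pool.Agent.H341R2 (lam lam_tendsto)
open Pool.Agent.W353.EF (LFun size)
open Pool.Agent.Y149.Ord (HasOrder)
open Pool.Agent.Y149.WR (exists_delta)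

section
variable {K : Type} [Field K] {A : Type} [Group A]
  {act : Gal(AlgebraicClosure K/K) →* MulAut A}

/-- the type depends only on the class -/
theorem type_left (F : Form act) (U : Subgroup (GK K)) {w : GK K} (hw : w ∈ U) (σ : GK K) :
    F.type U (w * σ) = F.type U σ := by
  ext a
  constructor
  · rintro ⟨b, hb, u, hu, rfl⟩
    exact ⟨b, hb, u * w, U.mul_mem hu hw, by rw [mul_assoc]⟩
  · rintro ⟨b, hb, u, hu, rfl⟩
    refine ⟨b, hb, u * w⁻¹, U.mul_mem hu (U.inv_mem hw), ?_⟩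
    rw [mul_assoc, inv_mul_cancel_left]

theorem type_mk (F : Form act) {U : Subgroup (GK K)} (hU : U.Normal) {σ τ : GK K}
    (h : (QuotientGroup.mk σ : GK K ⧸ U) = QuotientGroup.mk τ) : F.type U σ = F.type U τ := by
  have h1 := QuotientGroup.eq.1 h
  have h2 : τ = (σ * (σ⁻¹ * τ) * σ⁻¹) * σ := by group
  rw [h2, type_left F U (hU.conj_mem _ h1 σ)]

/-- **There are only finitely many types.** -/
theorem finite_types [Finite A] {U : Subgroup (GK K)} (hU : U.Normal) (hfin : Finite (GK K ⧸ U)) :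
    ∃ S : Finset (Form act), S.card ≤ 2 ^ (Nat.card A * U.index) ∧
      ∀ F : Form act, ∃ F' ∈ S, ∀ σ, F.type U σ = F'.type U σ := by
  classical
  have h1 : (Set.range fun (F : Form act) (q : GK K ⧸ U) => F.type U q.out).Finite :=
    Set.toFinite _
  obtain ⟨T, hT⟩ := h1.exists_finset_coe
  have hTc : T.card ≤ 2 ^ (Nat.card A * U.index) := by
    have hfA := Fintype.ofFinite A
    have hfQ := Fintype.ofFinite (GK K ⧸ U)
    refine (Finset.card_le_univ T).trans (le_of_eq ?_)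
    rw [Fintype.card_fun, Fintype.card_set, ← pow_mul, Subgroup.index, Nat.card_eq_fintype_card,
      Nat.card_eq_fintype_card]
  have hT' : (T : Set ((GK K ⧸ U) → Set A)) ⊆
      (fun (F : Form act) (q : GK K ⧸ U) => F.type U q.out) '' Set.univ := by
    rw [hT, Set.image_univ]
  have hch : ∀ t ∈ T, ∃ F : Form act, (fun q : GK K ⧸ U => F.type U q.out) = t := by
    intro t ht
    obtain ⟨F, -, hF⟩ := hT' ht
    exact ⟨F, hF⟩
  have : Nonempty (Form act) := ⟨quotientForm act⟩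
  choose! g hg using hch
  refine ⟨T.image g, Finset.card_image_le.trans hTc, fun F => ?_⟩
  have h2 : (fun q : GK K ⧸ U => F.type U q.out) ∈ T := by
    have : (fun q : GK K ⧸ U => F.type U q.out) ∈
      (T : Set ((GK K ⧸ U) → Set A)) := by
      rw [hT]
      exact ⟨F, rfl⟩
    exact this
  refine ⟨_, Finset.mem_image_of_mem g h2, fun σ => ?_⟩
  set F' := g (fun q : GK K ⧸ U => F.type U q.out) with hF'
  have h3 := hg _ h2
  rw [← hF'] at h3
  have h4 : F'.type U (QuotientGroup.mk σ : GK K ⧸ U).out =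
      F.type U (QuotientGroup.mk σ : GK K ⧸ U).out := congrFun h3 (QuotientGroup.mk σ)
  rw [type_mk F hU (QuotientGroup.out_eq' (QuotientGroup.mk σ : GK K ⧸ U)).symm,
    type_mk F' hU (QuotientGroup.out_eq' (QuotientGroup.mk σ : GK K ⧸ U)).symm, h4]

/-- the same type over a larger field -/
theorem SameType.mono {M M' : IntermediateField K (AlgebraicClosure K)} (h : M ≤ M')
    {F F' : Form act} (hF : SameType M' F F') : SameType M F F' := by
  have hle : M'.fixingSubgroup ≤ M.fixingSubgroup := IntermediateField.fixingSubgroup_le h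
  have key : ∀ (G : Form act) (σ : GK K) (a : A), a ∈ G.type M.fixingSubgroup σ ↔
      ∃ u ∈ M.fixingSubgroup, a ∈ G.type M'.fixingSubgroup (u * σ) := by
    intro G σ a
    constructor
    · rintro ⟨b, hb, u, hu, rfl⟩
      exact ⟨u, hu, b, hb, 1, M'.fixingSubgroup.one_mem, by rw [one_mul]⟩
    · rintro ⟨u, hu, b, hb, w, hw, rfl⟩
      exact ⟨b, hb, w * u, M.fixingSubgroup.mul_mem (hle hw) hu, by rw [mul_assoc]⟩
  intro σ
  ext a
  rw [key, key]
  refine exists_congr fun u => and_congr_right fun _ => ?_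
  rw [hF (u * σ)]

/-- the forms with the type of the quotient -/
theorem sameType_quotient {M : IntermediateField K (AlgebraicClosure K)}
    (hM : M.fixingSubgroup ≤ act.ker) (F : Form act)
    (hF : ∀ a, ∃ b ∈ F.B, ∃ u ∈ M.fixingSubgroup, a = b * F.c u) :
    SameType M F (quotientForm act) := by
  intro σ
  have h1 : (quotientForm act).type M.fixingSubgroup σ = Set.univ := by
    refine Set.eq_univ_of_forall fun a => ?_
    exact ⟨a, Subgroup.mem_top a, 1, M.fixingSubgroup.one_mem, (mul_one a).symm⟩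
  rw [h1]
  refine Set.eq_univ_of_forall fun a => ?_
  obtain ⟨b, hb, u, hu, h2⟩ := hF (a * (F.c σ)⁻¹)
  refine ⟨b, hb, u, hu, ?_⟩
  have h3 : F.c (u * σ) = F.c u * F.c σ := by
    rw [F.mul, MonoidHom.mem_ker.1 (hM hu), MulAut.one_apply]
  rw [h3, ← mul_assoc, ← h2, inv_mul_cancel_right]

variable {k V : Type} [Field k] [AddCommGroup V] [Module k V]
  (R : Representation k (A ⋊[act] Gal(AlgebraicClosure K/K)) V)

/-- **The cycles depend only on the type.** -/
theorem mem_cycles_iff (F : Form act) {U : Subgroup (GK K)} (hU : U.Normal)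
    (hR : ∀ u ∈ U, R (SemidirectProduct.inr u) = 1) (x : V) :
    x ∈ F.cycles R ↔ ∀ σ, ∀ a ∈ F.type U σ, R ⟨a, σ⟩ x = x := by
  constructor
  · rintro ⟨h1, h2⟩ σ a ⟨b, hb, u, hu, rfl⟩
    have hs : σ⁻¹ * u⁻¹ * σ ∈ U := by
      have := hU.conj_mem u⁻¹ (U.inv_mem hu) σ⁻¹
      rwa [inv_inv] at this
    have e : (⟨b * F.c (u * σ), σ⟩ : A ⋊[act] GK K) =
        SemidirectProduct.inl b * ⟨F.c (u * σ), u * σ⟩ *
          SemidirectProduct.inr (σ⁻¹ * u⁻¹ * σ) := by
      refine SemidirectProduct.ext ?_ ?_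
      · simp
      · simp only [SemidirectProduct.mul_right, SemidirectProduct.right_inl,
          SemidirectProduct.right_inr]
        group
    rw [e, map_mul, map_mul, Module.End.mul_apply, Module.End.mul_apply, hR _ hs,
      Module.End.one_apply, h2, h1 b hb]
  · intro h
    have hone : F.c 1 = 1 := by
      have h := F.mul 1 1
      rw [mul_one, map_one, MulAut.one_apply] at h
      exact (mul_eq_left.1 h.symm)
    refine ⟨fun b hb => ?_, fun σ => ?_⟩
    · refine h 1 b ⟨b, hb, 1, U.one_mem, ?_⟩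
      rw [mul_one, hone, mul_one]
    · exact h σ _ ⟨1, F.B.one_mem, 1, U.one_mem, by rw [one_mul, one_mul]⟩

theorem cycles_eq {F F' : Form act} {U : Subgroup (GK K)} (hU : U.Normal)
    (hR : ∀ u ∈ U, R (SemidirectProduct.inr u) = 1)
    (h : ∀ σ, F.type U σ = F'.type U σ) : F.cycles R = F'.cycles R := by
  ext x
  rw [mem_cycles_iff R F hU hR, mem_cycles_iff R F' hU hR]
  simp only [h]

end

section
variable {K : Type} [Field K] [NumberField K] {A : Type} [Group A] [Fintype A] {l : ℕ}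
  {X : Set (MvPolynomial (Fin l) (𝓞 K))} {act : Gal(AlgebraicClosure K/K) →* MulAut A}
  {M : A → Matrix (Fin l) (Fin l) (𝓞 (AlgebraicClosure K))} {d : ℕ} {N : ℕ → ℕ}
  {H : Coh X act M d N} {i n₀ : ℕ}

theorem order_of_freq {E E' : HeightOneSpectrum (𝓞 K) → ℂ[X]} {r r' : ℤ} {δ : ℝ} (hδ : δ < 1)
    (hf : ∃ᶠ ε : ℝ in 𝓝[>] 0, |size i E ε - size i E' ε| < δ) (hr : HasOrder i E r)
    (hr' : HasOrder i E' r') : r = r' := by
  have h1 := ((Pool.Agent.Y149.Ord.tendsto_size hr).sub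
    (Pool.Agent.Y149.Ord.tendsto_size hr')).abs
  have h2 : |-(r : ℝ) - -(r' : ℝ)| ≤ δ := by
    by_contra hcon
    push Not at hcon
    exact hf ((h1.eventually (lt_mem_nhds hcon)).mono fun ε h3 => not_lt.2 (le_of_lt h3))
  have h3 : |(r' : ℝ) - r| < 1 := by
    have e : (r' : ℝ) - r = -(r : ℝ) - -(r' : ℝ) := by ring
    rw [e]
    linarith
  have h4 : |r' - r| < 1 := by exact_mod_cast h3
  have h5 := Int.abs_lt_one_iff.1 h4
  omega

theorem inv_le (hn₀ : IsInv H i n₀) : n₀ ≤ N i := by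
  have h := n₀_le' (ρ := fun v => H.ρ v i) (W := fun v => H.W v i) (σ := H.σ)
    (fun v a => H.comm v i a) (fun v a => H.char v i a) hn₀.eq
  exact_mod_cast h

/-- **One field governs the pole orders of all twisted quotients.** -/
theorem governs (hn₀ : IsInv H i n₀) (L : IntermediateField K (AlgebraicClosure K))
    [FiniteDimensional K L] [IsGalois K L] (hL : L.fixingSubgroup ≤ act.ker) :
    ∃ Mf : IntermediateField K (AlgebraicClosure K), L ≤ Mf ∧ FiniteDimensional K Mf ∧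
      IsGalois K Mf ∧
      Module.finrank K Mf ≤ Module.finrank K L * Nat.card A ^ (8 * (N i - n₀) ^ 2) ∧
      ∃ δ : ℝ, 0 < δ ∧ δ < 1 ∧
      ∀ (F F' : Form act), SameType Mf F F' → ∀ (m m' : ℕ)
        (E E' : HeightOneSpectrum (𝓞 K) → ℂ[X]), IsEuler H F i m E → IsEuler H F' i m' E' →
        ∃ᶠ ε : ℝ in 𝓝[>] 0, |size i E ε - size i E' ε| < δ := by
  obtain ⟨δ, hδ0, hδ1, hδ2⟩ := exists_delta ((2 * (N i - n₀)) ^ 2)
  have hnor : L.fixingSubgroup.Normal := (InfiniteGalois.normal_iff_isGalois L).2 inferInstance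
  have hop : IsOpen (L.fixingSubgroup : Set (GK K)) := IntermediateField.fixingSubgroup_isOpen L
  obtain ⟨V, h1, h2, h3, h4, h5⟩ := exists_subgroup hL hnor hop hδ0 hn₀
  have hcast : (2 * ((N i : ℝ) - n₀)) ^ 2 = (((2 * (N i - n₀)) ^ 2 : ℕ) : ℝ) := by
    push_cast [Nat.cast_sub (inv_le hn₀)]
    ring
  rw [hcast, hδ2] at h4
  have hcl : IsClosed (V : Set (GK K)) := Subgroup.isClosed_of_isOpen V h2
  have hfix : (IntermediateField.fixedField V).fixingSubgroup = V :=
    InfiniteGalois.fixingSubgroup_fixedField (⟨V, hcl⟩ : ClosedSubgroup (GK K))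
  have hfd : FiniteDimensional K (IntermediateField.fixedField V) := by
    refine (InfiniteGalois.isOpen_iff_finite (IntermediateField.fixedField V)).1 ?_
    rw [hfix]
    exact h2
  have hgal : IsGalois K (IntermediateField.fixedField V) := by
    refine (InfiniteGalois.normal_iff_isGalois (IntermediateField.fixedField V)).1 ?_
    rw [hfix]
    exact h1
  refine ⟨IntermediateField.fixedField V, ?_, hfd, hgal, ?_, δ, hδ0, hδ1, ?_⟩
  · have e := InfiniteGalois.fixedField_fixingSubgroup L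
    rw [← e]
    exact IntermediateField.fixedField_le h3
  · rw [IntermediateField.finrank_eq_fixingSubgroup_index,
      IntermediateField.finrank_eq_fixingSubgroup_index, hfix]
    refine h4.trans (le_of_eq ?_)
    rw [mul_comm, ← pow_mul]
    congr 2
    ring
  · intro F F' hFF m m' E E' hE hE'
    rw [Filter.Frequently]
    intro hev
    refine h5 (F, F') (fun τ => ?_) ⟨m, m', E, E', hE, hE', hev.mono fun ε h => not_lt.1 h⟩
    have := hFF τ
    rwa [hfix] at this

/-- **One field for several degrees.** -/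
theorem governs_all (I : Finset ℕ) (n₀ : ℕ → ℕ) (hn₀ : ∀ i ∈ I, IsInv H i (n₀ i))
    (L : IntermediateField K (AlgebraicClosure K)) [FiniteDimensional K L] [IsGalois K L]
    (hL : L.fixingSubgroup ≤ act.ker) :
    ∃ Mf : IntermediateField K (AlgebraicClosure K), L ≤ Mf ∧ FiniteDimensional K Mf ∧
      IsGalois K Mf ∧
      Module.finrank K Mf ≤
        Module.finrank K L * Nat.card A ^ (8 * ∑ i ∈ I, (N i - n₀ i) ^ 2) ∧
      ∃ δ : ℝ, 0 < δ ∧ δ < 1 ∧ ∀ i ∈ I,
      ∀ (F F' : Form act), SameType Mf F F' → ∀ (m m' : ℕ)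
        (E E' : HeightOneSpectrum (𝓞 K) → ℂ[X]), IsEuler H F i m E → IsEuler H F' i m' E' →
        ∃ᶠ ε : ℝ in 𝓝[>] 0, |size i E ε - size i E' ε| < δ := by
  classical
  induction I using Finset.induction_on with
  | empty =>
    refine ⟨L, le_rfl, inferInstance, inferInstance, by simp, 1 / 2, by norm_num, by norm_num, ?_⟩
    intro i hi
    exact absurd hi (Finset.notMem_empty i)
  | insert j I hj ih =>
    obtain ⟨M₁, h1, h2, h3, h4, δ₁, h5, h6, h7⟩ := ih fun i hi =>
      hn₀ i (Finset.mem_insert_of_mem hi)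
    have hM₁ : M₁.fixingSubgroup ≤ act.ker :=
      (IntermediateField.fixingSubgroup_le h1).trans hL
    obtain ⟨M₂, g1, g2, g3, g4, δ₂, g5, g6, g7⟩ :=
      governs (hn₀ j (Finset.mem_insert_self j I)) M₁ hM₁
    refine ⟨M₂, h1.trans g1, g2, g3, ?_, max δ₁ δ₂, lt_max_of_lt_left h5, max_lt h6 g6, ?_⟩
    · refine g4.trans ((Nat.mul_le_mul_right _ h4).trans (le_of_eq ?_))
      rw [Finset.sum_insert hj, mul_assoc, ← pow_add]
      congr 2
      ring
    · intro i hi F F' hF m m' E E' hE hE'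
      rcases Finset.mem_insert.1 hi with rfl | hi
      · exact (g7 F F' hF m m' E E' hE hE').mono fun ε h => lt_max_of_lt_right h
      · exact (h7 i hi F F' (hF.mono g1) m m' E E' hE hE').mono fun ε h => lt_max_of_lt_left h

/-- the Euler factors of the quotient in the algebraic case -/
noncomputable def algE (K : Type) [Field K] [NumberField K] (i n₀ : ℕ)
    (v : HeightOneSpectrum (𝓞 K)) : ℂ[X] :=
  (1 - C ((((Ideal.absNorm v.asIdeal : ℝ) ^ ((i : ℝ) / 2) : ℝ)) : ℂ) * Polynomial.X) ^ n₀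

theorem W_proj (hA : IsAlgebraic H i) : ∀ᶠ v in cofinite,
    (H.W v i : Matrix (Fin (N i)) (Fin (N i)) ℂ) * proj (H.ρ v i) = proj (H.ρ v i) := by
  filter_upwards [hA] with v hv
  rw [finsum_eq_sum_of_fintype] at hv
  have e : proj (H.ρ v i) = (Fintype.card A : ℂ)⁻¹ •
      ∑ a, (H.ρ v i a : Matrix (Fin (N i)) (Fin (N i)) ℂ) := by
    unfold proj op
    rw [Finset.smul_sum]
    refine Finset.sum_congr rfl fun a _ => ?_
    push_cast
    rfl
  rw [e, mul_smul_comm, hv]

theorem trace_alg {n : ℕ} {ρ : A →* unitaryGroup (Fin n) ℂ} {W : unitaryGroup (Fin n) ℂ}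
    (h : (W : Matrix (Fin n) (Fin n) ℂ) * proj ρ = proj ρ) (e : ℕ) :
    (W⁻¹ ^ e : unitaryGroup (Fin n) ℂ) * proj ρ = proj ρ := by
  have h1 : ((W⁻¹ : unitaryGroup (Fin n) ℂ) : Matrix (Fin n) (Fin n) ℂ) * proj ρ = proj ρ := by
    have h2 : ((W⁻¹ : unitaryGroup (Fin n) ℂ) : Matrix (Fin n) (Fin n) ℂ) *
        (W : Matrix (Fin n) (Fin n) ℂ) = 1 := Unitary.star_mul_self_of_mem W.2
    calc ((W⁻¹ : unitaryGroup (Fin n) ℂ) : Matrix (Fin n) (Fin n) ℂ) * proj ρ
        = ((W⁻¹ : unitaryGroup (Fin n) ℂ) : Matrix (Fin n) (Fin n) ℂ) *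
          ((W : Matrix (Fin n) (Fin n) ℂ) * proj ρ) := by rw [h]
      _ = proj ρ := by rw [← Matrix.mul_assoc, h2, Matrix.one_mul]
  induction e with
  | zero => simp
  | succ e ih =>
    have h2 : ((W⁻¹ ^ (e + 1) : unitaryGroup (Fin n) ℂ) : Matrix (Fin n) (Fin n) ℂ) =
        ((W⁻¹ ^ e : unitaryGroup (Fin n) ℂ) : Matrix (Fin n) (Fin n) ℂ) *
          ((W⁻¹ : unitaryGroup (Fin n) ℂ) : Matrix (Fin n) (Fin n) ℂ) := by
      rw [pow_succ]
      rfl
    rw [h2, Matrix.mul_assoc, h1, ih]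

theorem trace_sum_proj {n : ℕ} {ρ : A →* unitaryGroup (Fin n) ℂ} (V : unitaryGroup (Fin n) ℂ) :
    (Nat.card (⊤ : Subgroup A) : ℂ)⁻¹ * ∑ᶠ b : (⊤ : Subgroup A),
      trace ((ρ b * V : unitaryGroup (Fin n) ℂ) : Matrix (Fin n) (Fin n) ℂ) =
      trace ((V : Matrix (Fin n) (Fin n) ℂ) * proj ρ) := by
  have h1 : ∑ᶠ b : (⊤ : Subgroup A),
      trace ((ρ b * V : unitaryGroup (Fin n) ℂ) : Matrix (Fin n) (Fin n) ℂ) =
      ∑ a : A, trace ((ρ a * V : unitaryGroup (Fin n) ℂ) : Matrix (Fin n) (Fin n) ℂ) := by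
    rw [← finsum_eq_sum_of_fintype]
    exact finsum_eq_of_bijective (Subgroup.topEquiv (G := A)) Subgroup.topEquiv.bijective
      fun b => rfl
  rw [h1, Nat.card_congr (Subgroup.topEquiv (G := A)).toEquiv, Nat.card_eq_fintype_card]
  unfold proj op
  rw [Finset.mul_sum, Finset.mul_sum, trace_sum]
  refine Finset.sum_congr rfl fun a _ => ?_
  rw [mul_smul_comm, trace_smul, smul_eq_mul, trace_mul_comm (V : Matrix (Fin n) (Fin n) ℂ)]
  push_cast
  rfl

theorem absNorm_pos (v : HeightOneSpectrum (𝓞 K)) : (0 : ℝ) < Ideal.absNorm v.asIdeal :=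
  Pool.Agent.Y149.WR.nm_pos2 v

/-- **The Euler factors of the quotient in the algebraic case.** -/
theorem algE_isEuler (hn₀ : IsInv H i n₀) (hA : IsAlgebraic H i) :
    IsEuler H (quotientForm act) i n₀ (algE K i n₀) := by
  constructor
  · filter_upwards [W_proj hA] with v hv
    refine ⟨fun _ => (((Ideal.absNorm v.asIdeal : ℝ) ^ ((i : ℝ) / 2) : ℝ) : ℂ), fun _ => ?_,
      fun e he => ?_, fun z => ?_⟩
    · rw [Complex.norm_real, Real.norm_of_nonneg (Real.rpow_nonneg (absNorm_pos v).le _)]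
    · have h1 : ∀ b : (quotientForm act).B,
          ((((Ideal.absNorm v.asIdeal : ℝ) ^ ((i : ℝ) / 2)) ^ e : ℝ) : ℂ) *
          trace ((H.ρ v i b * (H.ρ v i ((quotientForm act).c (H.σ v)) * H.W v i)⁻¹ ^ e :
          unitaryGroup (Fin (N i)) ℂ) : Matrix (Fin (N i)) (Fin (N i)) ℂ) =
          ((((Ideal.absNorm v.asIdeal : ℝ) ^ ((i : ℝ) / 2)) ^ e : ℝ) : ℂ) *
          trace ((H.ρ v i b * (H.W v i)⁻¹ ^ e :
          unitaryGroup (Fin (N i)) ℂ) : Matrix (Fin (N i)) (Fin (N i)) ℂ) := by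
        intro b
        have e1 : (quotientForm act).c (H.σ v) = 1 := rfl
        rw [e1, map_one, one_mul]
      rw [finsum_congr h1]
      have h2 := trace_sum_proj (ρ := H.ρ v i) ((H.W v i)⁻¹ ^ e)
      rw [trace_alg hv e, trace_proj (H.ρ v i) (fun a => H.char v i a) hn₀.eq] at h2
      have h3 : (∑ᶠ b : (quotientForm act).B,
          ((((Ideal.absNorm v.asIdeal : ℝ) ^ ((i : ℝ) / 2)) ^ e : ℝ) : ℂ) *
          trace ((H.ρ v i b * (H.W v i)⁻¹ ^ e :
          unitaryGroup (Fin (N i)) ℂ) : Matrix (Fin (N i)) (Fin (N i)) ℂ)) =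
          ((((Ideal.absNorm v.asIdeal : ℝ) ^ ((i : ℝ) / 2)) ^ e : ℝ) : ℂ) *
          ∑ᶠ b : (⊤ : Subgroup A), trace ((H.ρ v i b * (H.W v i)⁻¹ ^ e :
          unitaryGroup (Fin (N i)) ℂ) : Matrix (Fin (N i)) (Fin (N i)) ℂ) :=
        (mul_finsum _ _).symm
      rw [h3]
      have h4 : (Nat.card (quotientForm act).B : ℂ) = Nat.card (⊤ : Subgroup A) := rfl
      rw [h4, mul_left_comm, h2, Finset.sum_const, Finset.card_univ, Fintype.card_fin,
        nsmul_eq_mul]
      push_cast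
      ring
    · unfold algE
      rw [Finset.prod_const, Finset.card_univ, Fintype.card_fin]
      simp
  · intro v
    unfold algE
    simp only [Polynomial.eval_pow, Polynomial.eval_sub, Polynomial.eval_one,
      Polynomial.eval_mul, Polynomial.eval_C, Polynomial.eval_X]
    refine pow_ne_zero _ ?_
    have hq := absNorm_pos v
    have hq0 : ((Ideal.absNorm v.asIdeal : ℕ) : ℂ) ≠ 0 := by
      have : ((Ideal.absNorm v.asIdeal : ℕ) : ℝ) ≠ 0 := hq.ne'
      exact_mod_cast this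
    have h1 : ((((Ideal.absNorm v.asIdeal : ℝ) ^ ((i : ℝ) / 2) : ℝ)) : ℂ) *
        ((Ideal.absNorm v.asIdeal : ℕ) : ℂ) ^ (-((i : ℂ) / 2 + 1)) =
        ((Ideal.absNorm v.asIdeal : ℕ) : ℂ)⁻¹ := by
      rw [Complex.ofReal_cpow hq.le, Complex.ofReal_natCast, ← Complex.cpow_add _ _ hq0]
      have e : ((((i : ℝ) / 2 : ℝ)) : ℂ) + -((i : ℂ) / 2 + 1) = -1 := by
        push_cast
        ring
      rw [e, Complex.cpow_neg_one]
    rw [h1, sub_ne_zero]
    intro h2
    have h3 : ((Ideal.absNorm v.asIdeal : ℕ) : ℂ) = 1 := by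
      rw [← inv_inv ((Ideal.absNorm v.asIdeal : ℕ) : ℂ), ← h2, inv_one]
    have h4 : (Ideal.absNorm v.asIdeal : ℕ) = 1 := by exact_mod_cast h3
    have h5 : 2 ≤ Ideal.absNorm v.asIdeal := two_le_nm v
    omega

/-- the size of the quotient in the algebraic case -/
theorem size_alg (hn₀ : IsInv H i n₀) (hA : IsAlgebraic H i)
    {m : ℕ} {E : HeightOneSpectrum (𝓞 K) → ℂ[X]} (hE : IsEuler H (quotientForm act) i m E) :
    Tendsto (size i E) (𝓝[>] 0) (𝓝 (n₀ : ℝ)) := by
  have hN : NormSys (nm K) := normSys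
  have h1 := (size_form hE).2
  have h2 : ∀ᶠ v in cofinite, H.fr i (quotientForm act) v + (-1) * (n₀ : ℝ) = 0 := by
    filter_upwards [W_proj hA] with v hv
    have e : op (H.ρ v i) ((quotientForm act).mu (H.σ v)) = proj (H.ρ v i) := by
      unfold proj
      congr 1
      funext a
      unfold Form.mu
      have h3 : a * ((quotientForm act).c (H.σ v))⁻¹ ∈ (quotientForm act).B :=
        Subgroup.mem_top _
      rw [if_pos h3]
      have h4 : (Nat.card (quotientForm act).B) = Nat.card (⊤ : Subgroup A) := rfl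
      rw [h4, Nat.card_congr (Subgroup.topEquiv (G := A)).toEquiv, Nat.card_eq_fintype_card]
    unfold Coh.fr TW.fr
    rw [e, trace_mul_comm, hv, trace_proj (H.ρ v i) (fun a => H.char v i a) hn₀.eq,
      Complex.ofReal_re]
    ring
  have hb : ∀ v : HeightOneSpectrum (𝓞 K), |(-1) * (n₀ : ℝ)| ≤ n₀ := fun v => by
    rw [abs_mul, abs_neg, abs_one, one_mul, Nat.abs_cast]
  have h3 := Pool.Agent.Y722.EP.EP_fin (K := K)
    (φ := fun v => H.fr i (quotientForm act) v + (-1) * (n₀ : ℝ)) (B := N i + n₀)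
    (fun v => (abs_add_le _ _).trans (add_le_add (H.abs_fr i _ v) (hb v))) h2
  have h4 := (EP_one K).const_mul (n₀ : ℝ)
  have h5 := (h3.add h4).sub h1
  rw [mul_one, zero_add, sub_zero] at h5
  refine h5.congr' ?_
  filter_upwards [self_mem_nhdsWithin] with ε hε
  have hε' : (0 : ℝ) < ε := hε
  rw [EP_add hN hε' (fun v => H.abs_fr i _ v) hb]
  have e2 : (EP (nm K) ε fun _ => (-1) * (n₀ : ℝ)) = (-1) * ((n₀ : ℝ) * EP (nm K) ε fun _ => 1) := by
    rw [← EP_const_mul, ← EP_const_mul]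
    simp
  rw [e2]
  ring

end

end Pool.Agent.N172.TW
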