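import Pool.Agent.N172.TW.Fin

/-! Independent twists. -/

set_option autoImplicit false
set_option linter.unusedSectionVars false

namespace Pool.Agent.N172.TW

open Complex Filter Topology NumberField IsDedekindDomain Matrix Polynomial
open Pool.Agent.W540.BE Pool.Agent.W353.L1 Pool.Agent.W401.Cheb
open Pool.Agent.H341R2 (lam lam_tendsto)
open Pool.Agent.W353.EF (LFun size)
open Pool.Agent.Y149.Ord (HasOrder tendsto_size)

section
variable {K : Type} [Field K] {A : Type} [Group A] [Fintype A]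
  {act : Gal(AlgebraicClosure K/K) →* MulAut A}

/-- the elements on which some of the cocycles are trivial -/
def kerOn (U₀ : Subgroup (GK K)) {m : ℕ} (F : Fin m → Form act) (p : Fin m → Prop) :
    Subgroup (GK K) where
  carrier := {σ | σ ∈ U₀ ∧ σ ∈ act.ker ∧ ∀ j, p j → (F j).c σ = 1}
  one_mem' := ⟨U₀.one_mem, act.ker.one_mem, fun j _ => (F j).one⟩
  mul_mem' := fun {σ τ} h h' => ⟨U₀.mul_mem h.1 h'.1, act.ker.mul_mem h.2.1 h'.2.1,
    fun j hj => by rw [(F j).mul_of_ker h.2.1, h.2.2 j hj, h'.2.2 j hj, one_mul]⟩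
  inv_mem' := fun {σ} h => ⟨U₀.inv_mem h.1, act.ker.inv_mem h.2.1, fun j hj => by
    rw [(F j).inv_of_ker h.2.1, h.2.2 j hj, inv_one]⟩

variable {U₀ : Subgroup (GK K)} {m : ℕ} (F : Fin m → Form act)

theorem kerOn_normal (hU₀ : U₀.Normal) (p : Fin m → Prop) : (kerOn U₀ F p).Normal :=
  ⟨fun u hu τ => ⟨hU₀.conj_mem u hu.1 τ,
    (inferInstance : act.ker.Normal).conj_mem u hu.2.1 τ,
    fun j hj => (F j).conj_of_ker hu.2.1 (hu.2.2 j hj) τ⟩⟩

theorem kerOn_open (hU₀ : U₀ ≤ act.ker) (ho : IsOpen (U₀ : Set (GK K))) (p : Fin m → Prop) :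
    IsOpen (kerOn U₀ F p : Set (GK K)) := by
  choose U h1 h2 using fun j => (F j).cont
  have h3 : U₀ ⊓ ⨅ j, U j ≤ kerOn U₀ F p := by
    intro σ hσ
    refine ⟨hσ.1, hU₀ hσ.1, fun j _ => h2 j σ ?_⟩
    exact (Subgroup.mem_iInf.1 hσ.2) j
  refine Subgroup.isOpen_mono h3 ?_
  rw [Subgroup.coe_inf, Subgroup.coe_iInf]
  exact ho.inter (isOpen_iInter_of_finite h1)

end

section
variable {K : Type} [Field K] [NumberField K] {A : Type} [Group A] [Fintype A] {l : ℕ}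
  {X : Set (MvPolynomial (Fin l) (𝓞 K))} {act : Gal(AlgebraicClosure K/K) →* MulAut A}
  {M : A → Matrix (Fin l) (Fin l) (𝓞 (AlgebraicClosure K))} {d : ℕ} {N : ℕ → ℕ}
  {H : Coh X act M d N} {i n₀ : ℕ}

/-- **Bessel's inequality for independent twists.** -/
theorem ind_sum (hn₀ : IsInv H i n₀) (L : IntermediateField K (AlgebraicClosure K))
    [FiniteDimensional K L] [IsGalois K L] (hL : L.fixingSubgroup ≤ act.ker) {m : ℕ}
    (F : Fin m → Form act)
    (hF : ∀ a : Fin m → A, ∃ u ∈ L.fixingSubgroup, ∀ k, (F k).c u = a k)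
    {r : Fin m → ℕ} {E : Fin m → HeightOneSpectrum (𝓞 K) → ℂ[X]}
    (hE : ∀ k, IsEuler H (F k) i (r k) (E k))
    {r₀ : ℕ} {E₀ : HeightOneSpectrum (𝓞 K) → ℂ[X]} (hE₀ : IsEuler H (quotientForm act) i r₀ E₀)
    {η : ℝ} (hη : 0 < η) :
    ∀ᶠ ε : ℝ in 𝓝[>] 0, ∑ k, (size i (E k) ε - size i E₀ ε) ^ 2 ≤
      ((N i : ℝ) - n₀) ^ 2 + η := by
  have hnor : L.fixingSubgroup.Normal := (InfiniteGalois.normal_iff_isGalois L).2 inferInstance
  have hop : IsOpen (L.fixingSubgroup : Set (GK K)) := IntermediateField.fixingSubgroup_isOpen L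
  have hV := kerOn_normal F hnor fun _ => True
  have h := chain_bessel' (fun v a => H.comm v i a) (fun v a => H.char v i a) hn₀.eq
    (fun τ a => H.gal i τ a) H.isFrob (fun k => (F k, quotientForm act))
    (fun k => kerOn L.fixingSubgroup F (· < k)) (V := kerOn L.fixingSubgroup F fun _ => True)
    (kerOn_open F hL hop _) (fun k σ hσ => hσ.2.1)
    (fun k σ hσ => ⟨hσ.1, hσ.2.1, fun j _ => hσ.2.2 j trivial⟩)
    (fun j k hjk => ⟨fun u hu => hu.2.2 j hjk, fun u _ => rfl⟩)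
    (fun k => ⟨fun u hu => hu.2.2 k trivial, fun u _ => rfl⟩) ?_
    (fun k ε => size i (E k) ε - size i E₀ ε) (fun k => size_pair (hE k) hE₀) zero_le_one
    (by norm_num) (fun k v => psi_diag_one (fun v a => H.comm v i a)
      (fun v a => H.char v i a) hn₀.eq rfl v) hη
  · simpa using h
  · intro k τ
    have h1 : (quotientForm act).type (kerOn L.fixingSubgroup F (· < k)) τ = Set.univ := by
      refine Set.eq_univ_of_forall fun a => ?_
      exact ⟨a, Subgroup.mem_top a, 1, Subgroup.one_mem _, (mul_one a).symm⟩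
    simp only
    rw [h1]
    refine Set.eq_univ_of_forall fun a => ?_
    obtain ⟨u, hu, h2⟩ := hF fun j => if j = k then a * ((F k).c τ)⁻¹ else 1
    refine ⟨1, Subgroup.one_mem _, u, ⟨hu, hL hu, fun j hj => ?_⟩, ?_⟩
    · rw [h2 j, if_neg hj.ne]
    · rw [(F k).mul_of_ker (hL hu), h2 k, if_pos rfl, one_mul, inv_mul_cancel_right]

/-- the orders of independent twists -/
theorem ind_order (hn₀ : IsInv H i n₀) (L : IntermediateField K (AlgebraicClosure K))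
    [FiniteDimensional K L] [IsGalois K L] (hL : L.fixingSubgroup ≤ act.ker) {m : ℕ}
    (F : Fin m → Form act)
    (hF : ∀ a : Fin m → A, ∃ u ∈ L.fixingSubgroup, ∀ k, (F k).c u = a k)
    {r : Fin m → ℕ} {E : Fin m → HeightOneSpectrum (𝓞 K) → ℂ[X]}
    (hE : ∀ k, IsEuler H (F k) i (r k) (E k))
    {r₀ : ℕ} {E₀ : HeightOneSpectrum (𝓞 K) → ℂ[X]} (hE₀ : IsEuler H (quotientForm act) i r₀ E₀)
    {o : Fin m → ℤ} (ho : ∀ k, HasOrder i (E k) (o k)) {o₀ : ℤ}
    (ho₀ : Tendsto (size i E₀) (𝓝[>] 0) (𝓝 (-(o₀ : ℝ)))) :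
    ∑ k, (o k - o₀) ^ 2 ≤ ((N i : ℤ) - n₀) ^ 2 := by
  have hlim : Tendsto (fun ε : ℝ => ∑ k, (size i (E k) ε - size i E₀ ε) ^ 2) (𝓝[>] 0)
      (𝓝 (∑ k, (-(o k : ℝ) - -(o₀ : ℝ)) ^ 2)) :=
    tendsto_finsetSum _ fun k _ => ((tendsto_size (ho k)).sub ho₀).pow 2
  have h1 : ∑ k, (-(o k : ℝ) - -(o₀ : ℝ)) ^ 2 ≤ ((N i : ℝ) - n₀) ^ 2 :=
    le_of_forall_pos_le_add fun η hη =>
      le_of_tendsto hlim (ind_sum hn₀ L hL F hF hE hE₀ hη)
  have h2 : ∑ k, (-(o k : ℝ) - -(o₀ : ℝ)) ^ 2 = ((∑ k, (o k - o₀) ^ 2 : ℤ) : ℝ) := by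
    push_cast
    exact Finset.sum_congr rfl fun k _ => by ring
  rw [h2] at h1
  exact_mod_cast h1

end

end Pool.Agent.N172.TW
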