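import Mathlib

/-! Unitary representations of a finite group: the trace inequality and the averaging. -/

set_option autoImplicit false
set_option linter.unusedSectionVars false

namespace Pool.Agent.N172.TW

open Matrix Complex ComplexConjugate

section CS
variable {n : Type*} [Fintype n] [DecidableEq n]

theorem trace_mul_conjTranspose (X : Matrix n n ℂ) :
    (trace (X * Xᴴ)).re = ∑ p : n × n, ‖X p.1 p.2‖ ^ 2 := by
  rw [Fintype.sum_prod_type]
  simp only [trace, diag_apply, mul_apply, conjTranspose_apply, Complex.re_sum]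
  refine Finset.sum_congr rfl fun i _ => Finset.sum_congr rfl fun j _ => ?_
  rw [show star (X i j) = conj (X i j) from rfl, Complex.mul_conj, Complex.ofReal_re,
    Complex.normSq_eq_norm_sq]

theorem trace_conjTranspose_mul (X : Matrix n n ℂ) :
    (trace (Xᴴ * X)).re = ∑ p : n × n, ‖X p.1 p.2‖ ^ 2 := by
  rw [trace_mul_comm, trace_mul_conjTranspose]

/-- Cauchy–Schwarz for the trace -/
theorem norm_trace_mul_sq (X Y : Matrix n n ℂ) :
    ‖trace (X * Y)‖ ^ 2 ≤ (trace (X * Xᴴ)).re * (trace (Y * Yᴴ)).re := by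
  have h1 : ‖trace (X * Y)‖ ≤ ∑ p : n × n, ‖X p.1 p.2‖ * ‖Y p.2 p.1‖ := by
    rw [Fintype.sum_prod_type]
    simp only [trace, diag_apply, mul_apply]
    refine (norm_sum_le _ _).trans (Finset.sum_le_sum fun i _ => ?_)
    refine (norm_sum_le _ _).trans (Finset.sum_le_sum fun j _ => ?_)
    rw [norm_mul]
  have h2 : (∑ p : n × n, ‖X p.1 p.2‖ * ‖Y p.2 p.1‖) ^ 2 ≤
      (∑ p : n × n, ‖X p.1 p.2‖ ^ 2) * ∑ p : n × n, ‖Y p.2 p.1‖ ^ 2 :=
    Finset.sum_mul_sq_le_sq_mul_sq _ _ _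
  have h3 : ∑ p : n × n, ‖Y p.2 p.1‖ ^ 2 = ∑ p : n × n, ‖Y p.1 p.2‖ ^ 2 :=
    Fintype.sum_equiv (Equiv.prodComm n n) _ _ fun p => rfl
  rw [trace_mul_conjTranspose, trace_mul_conjTranspose, ← h3]
  exact (pow_le_pow_left₀ (norm_nonneg _) h1 2).trans h2

end CS

section Rep
variable {A : Type*} [Group A] [Fintype A] {n : ℕ}
  (ρ : A →* unitaryGroup (Fin n) ℂ)

/-- the operator of a function on the group -/
noncomputable def op (f : A → ℝ) : Matrix (Fin n) (Fin n) ℂ :=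
  ∑ a, (f a : ℂ) • (ρ a : Matrix (Fin n) (Fin n) ℂ)

/-- the projection to the invariants -/
noncomputable def proj : Matrix (Fin n) (Fin n) ℂ := op ρ fun _ => (Fintype.card A : ℝ)⁻¹

theorem card_ne : (Fintype.card A : ℂ) ≠ 0 := by
  exact_mod_cast Fintype.card_ne_zero

theorem coe_mul (a b : A) : ((ρ (a * b) : unitaryGroup (Fin n) ℂ) : Matrix (Fin n) (Fin n) ℂ) =
    (ρ a : Matrix (Fin n) (Fin n) ℂ) * (ρ b : Matrix (Fin n) (Fin n) ℂ) := by
  rw [map_mul]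
  rfl

theorem coe_star (a : A) : ((ρ a : unitaryGroup (Fin n) ℂ) : Matrix (Fin n) (Fin n) ℂ)ᴴ =
    (ρ a⁻¹ : Matrix (Fin n) (Fin n) ℂ) := by
  rw [map_inv]
  rfl

theorem proj_mul (a : A) : proj ρ * (ρ a : Matrix (Fin n) (Fin n) ℂ) = proj ρ := by
  unfold proj op
  rw [Finset.sum_mul]
  refine Fintype.sum_equiv (Equiv.mulRight a) _ _ fun b => ?_
  rw [smul_mul_assoc, ← coe_mul]
  rfl

theorem proj_op (f : A → ℝ) : proj ρ * op ρ f = ((∑ a, f a : ℝ) : ℂ) • proj ρ := by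
  unfold op
  rw [Finset.mul_sum]
  simp only [mul_smul_comm, proj_mul]
  rw [← Finset.sum_smul]
  push_cast
  rfl

theorem proj_proj : proj ρ * proj ρ = proj ρ := by
  have h := proj_op ρ fun _ => (Fintype.card A : ℝ)⁻¹
  rw [Finset.sum_const, Finset.card_univ, nsmul_eq_mul,
    mul_inv_cancel₀ (by exact_mod_cast Fintype.card_ne_zero), Complex.ofReal_one, one_smul] at h
  exact h

theorem proj_star : (proj ρ)ᴴ = proj ρ := by
  unfold proj op
  rw [conjTranspose_sum]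
  refine Fintype.sum_equiv (Equiv.inv A) _ _ fun a => ?_
  rw [conjTranspose_smul, coe_star]
  simp

/-- the complement of the projection -/
noncomputable def cpl : Matrix (Fin n) (Fin n) ℂ := 1 - proj ρ

theorem cpl_star : (cpl ρ)ᴴ = cpl ρ := by
  unfold cpl
  rw [conjTranspose_sub, conjTranspose_one, proj_star]

theorem cpl_cpl : cpl ρ * cpl ρ = cpl ρ := by
  unfold cpl
  rw [sub_mul, mul_sub, mul_sub, proj_proj]
  simp

theorem cpl_op {f : A → ℝ} (hf : ∑ a, f a = 0) : cpl ρ * op ρ f = op ρ f := by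
  unfold cpl
  rw [sub_mul, proj_op, hf]
  simp

theorem cpl_comm (a : A) : cpl ρ * (ρ a : Matrix (Fin n) (Fin n) ℂ) =
    (ρ a : Matrix (Fin n) (Fin n) ℂ) - proj ρ := by
  unfold cpl
  rw [sub_mul, proj_mul, one_mul]

variable {χ : A → ℂ} (hχ : ∀ a, trace (ρ a : Matrix (Fin n) (Fin n) ℂ) = χ a)
include hχ

theorem trace_op (f : A → ℝ) : trace (op ρ f) = ∑ a, (f a : ℂ) * χ a := by
  unfold op
  rw [trace_sum]
  exact Finset.sum_congr rfl fun a _ => by rw [trace_smul, hχ, smul_eq_mul]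

theorem chi_one : χ 1 = n := by
  rw [← hχ, map_one]
  have : ((1 : unitaryGroup (Fin n) ℂ) : Matrix (Fin n) (Fin n) ℂ) = 1 := rfl
  rw [this, trace_one, Fintype.card_fin]

theorem chi_comm (a b : A) : χ (a * b) = χ (b * a) := by
  rw [← hχ, ← hχ, coe_mul, coe_mul, trace_mul_comm]

/-- the quadratic form of a function -/
theorem trace_op_star (f g : A → ℝ) : trace (op ρ f * (op ρ g)ᴴ) =
    ∑ a, ∑ b, ((f a * g b : ℝ) : ℂ) * χ (a * b⁻¹) := by
  unfold op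
  rw [conjTranspose_sum, Finset.sum_mul, trace_sum]
  refine Finset.sum_congr rfl fun a _ => ?_
  rw [Finset.mul_sum, trace_sum]
  refine Finset.sum_congr rfl fun b _ => ?_
  rw [conjTranspose_smul, coe_star, smul_mul_smul_comm, ← coe_mul, trace_smul, hχ]
  simp

variable {n₀ : ℝ} (hn₀ : ((Fintype.card A : ℂ))⁻¹ * ∑ a, χ a = n₀)
include hn₀

theorem trace_proj : trace (proj ρ) = n₀ := by
  unfold proj
  rw [trace_op ρ hχ, ← hn₀, Finset.mul_sum]
  exact Finset.sum_congr rfl fun a _ => by push_cast; rfl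

theorem trace_cpl : (trace (cpl ρ * (cpl ρ)ᴴ)).re = n - n₀ := by
  rw [cpl_star, cpl_cpl]
  unfold cpl
  rw [trace_sub, trace_one, Fintype.card_fin, trace_proj ρ hχ hn₀]
  simp

/-- **The trace inequality.** -/
theorem trace_ineq (W : unitaryGroup (Fin n) ℂ) {f : A → ℝ} (hf : ∑ a, f a = 0) :
    (trace (op ρ f * (W : Matrix (Fin n) (Fin n) ℂ))).re ^ 2 ≤
      (n - n₀) * (∑ a, ∑ b, ((f a * f b : ℝ) : ℂ) * χ (a * b⁻¹)).re := by
  have h1 : op ρ f * (W : Matrix (Fin n) (Fin n) ℂ) =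
      cpl ρ * (op ρ f * (W : Matrix (Fin n) (Fin n) ℂ)) := by
    rw [← mul_assoc, cpl_op ρ hf]
  have h2 := norm_trace_mul_sq (cpl ρ) (op ρ f * (W : Matrix (Fin n) (Fin n) ℂ))
  rw [← h1, trace_cpl ρ hχ hn₀, conjTranspose_mul] at h2
  have h3 : op ρ f * (W : Matrix (Fin n) (Fin n) ℂ) *
      ((W : Matrix (Fin n) (Fin n) ℂ)ᴴ * (op ρ f)ᴴ) = op ρ f * (op ρ f)ᴴ := by
    rw [mul_assoc, ← mul_assoc (W : Matrix (Fin n) (Fin n) ℂ)]
    have : (W : Matrix (Fin n) (Fin n) ℂ) * (W : Matrix (Fin n) (Fin n) ℂ)ᴴ = 1 :=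
      Matrix.mem_unitaryGroup_iff.1 W.2
    rw [this, one_mul]
  rw [h3, trace_op_star ρ hχ] at h2
  refine le_trans ?_ h2
  rw [← sq_abs]
  exact pow_le_pow_left₀ (abs_nonneg _) (Complex.abs_re_le_norm _) 2

theorem n₀_le : n₀ ≤ n := by
  have h := trace_cpl ρ hχ hn₀
  rw [trace_mul_conjTranspose] at h
  have h2 : 0 ≤ ∑ p : Fin n × Fin n, ‖cpl ρ p.1 p.2‖ ^ 2 :=
    Finset.sum_nonneg fun _ _ => by positivity
  linarith

/-- the values of the character -/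
theorem chi_bound (a : A) : ‖χ a - n₀‖ ≤ n - n₀ := by
  have h1 := norm_trace_mul_sq (cpl ρ) (cpl ρ * (ρ a : Matrix (Fin n) (Fin n) ℂ))
  have h2 : trace (cpl ρ * (cpl ρ * (ρ a : Matrix (Fin n) (Fin n) ℂ))) = χ a - n₀ := by
    rw [← mul_assoc, cpl_cpl, cpl_comm, trace_sub, hχ, trace_proj ρ hχ hn₀]
  have h3 : cpl ρ * (ρ a : Matrix (Fin n) (Fin n) ℂ) *
      (cpl ρ * (ρ a : Matrix (Fin n) (Fin n) ℂ))ᴴ = cpl ρ * (cpl ρ)ᴴ := by
    rw [conjTranspose_mul, mul_assoc, ← mul_assoc (ρ a : Matrix (Fin n) (Fin n) ℂ)]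
    have : (ρ a : Matrix (Fin n) (Fin n) ℂ) * (ρ a : Matrix (Fin n) (Fin n) ℂ)ᴴ = 1 :=
      Matrix.mem_unitaryGroup_iff.1 (ρ a).2
    rw [this, one_mul]
  rw [h2, h3, trace_cpl ρ hχ hn₀, ← sq] at h1
  exact le_of_sq_le_sq h1 (by linarith [n₀_le ρ hχ hn₀])

/-- the diagonal bound -/
theorem diag_bound {f : A → ℝ} (hf : ∑ a, f a = 0) {C : ℝ} (hC : ∑ a, |f a| ≤ C) :
    (∑ a, ∑ b, ((f a * f b : ℝ) : ℂ) * χ (a * b⁻¹)).re ≤ C ^ 2 * (n - n₀) := by
  have hn := n₀_le ρ hχ hn₀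
  have h1 : ∑ a, ∑ b, ((f a * f b : ℝ) : ℂ) * χ (a * b⁻¹) =
      ∑ a, ∑ b, ((f a * f b : ℝ) : ℂ) * (χ (a * b⁻¹) - n₀) := by
    have h2 : ∑ a, ∑ b, ((f a * f b : ℝ) : ℂ) * (n₀ : ℂ) = 0 := by
      have : ∀ a, ∑ b, ((f a * f b : ℝ) : ℂ) * (n₀ : ℂ) = 0 := by
        intro a
        rw [← Finset.sum_mul, ← Complex.ofReal_sum, ← Finset.mul_sum, hf]
        simp
      exact Finset.sum_eq_zero fun a _ => this a
    simp only [mul_sub, Finset.sum_sub_distrib]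
    rw [h2, sub_zero]
  rw [h1]
  refine (Complex.re_le_norm _).trans ?_
  calc ‖∑ a, ∑ b, ((f a * f b : ℝ) : ℂ) * (χ (a * b⁻¹) - n₀)‖
      ≤ ∑ a, ∑ b, |f a| * |f b| * (n - n₀) := by
        refine (norm_sum_le _ _).trans (Finset.sum_le_sum fun a _ => ?_)
        refine (norm_sum_le _ _).trans (Finset.sum_le_sum fun b _ => ?_)
        rw [norm_mul, Complex.norm_real, Real.norm_eq_abs, abs_mul]
        exact mul_le_mul_of_nonneg_left (chi_bound ρ hχ hn₀ _) (by positivity)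
    _ = (∑ a, |f a|) ^ 2 * (n - n₀) := by
        rw [sq, Finset.sum_mul_sum, Finset.sum_mul]
        refine Finset.sum_congr rfl fun a _ => ?_
        rw [Finset.sum_mul]
    _ ≤ C ^ 2 * (n - n₀) := by
        refine mul_le_mul_of_nonneg_right ?_ (by linarith)
        exact pow_le_pow_left₀ (Finset.sum_nonneg fun _ _ => abs_nonneg _) hC 2

end Rep

/-! ### The averaging -/

section Avg
variable {A : Type*} [Group A] [Fintype A]

/-- the mean value of the functions `x ↦ f (b⁻¹ x α(b))` -/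
noncomputable def sm (α : MulAut A) (f : A → ℝ) (x : A) : ℝ :=
  (Fintype.card A : ℝ)⁻¹ * ∑ b, f (b⁻¹ * x * α b)

theorem cardR_pos : (0 : ℝ) < Fintype.card A := by
  exact_mod_cast Fintype.card_pos

theorem sum_shift (α : MulAut A) (f : A → ℝ) (b : A) :
    ∑ x, f (b⁻¹ * x * α b) = ∑ x, f x :=
  Fintype.sum_equiv ((Equiv.mulLeft b⁻¹).trans (Equiv.mulRight (α b))) _ _ fun _ => rfl

theorem sum_sm (α : MulAut A) (f : A → ℝ) : ∑ x, sm α f x = ∑ x, f x := by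
  unfold sm
  rw [← Finset.mul_sum, Finset.sum_comm]
  simp only [sum_shift α f]
  rw [Finset.sum_const, Finset.card_univ, nsmul_eq_mul, ← mul_assoc,
    inv_mul_cancel₀ cardR_pos.ne', one_mul]

theorem abs_sm (α : MulAut A) (f : A → ℝ) : ∑ x, |sm α f x| ≤ ∑ x, |f x| := by
  have h1 : ∀ x, |sm α f x| ≤ sm α (fun y => |f y|) x := by
    intro x
    unfold sm
    rw [abs_mul, abs_of_pos (inv_pos.2 cardR_pos)]
    exact mul_le_mul_of_nonneg_left (Finset.abs_sum_le_sum_abs _ _) (inv_pos.2 cardR_pos).le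
  exact (Finset.sum_le_sum fun x _ => h1 x).trans (sum_sm α _).le

theorem sm_sub (α : MulAut A) (f g : A → ℝ) (x : A) :
    sm α (fun y => f y - g y) x = sm α f x - sm α g x := by
  unfold sm
  rw [Finset.sum_sub_distrib, mul_sub]

theorem sm_sum {ι : Type*} (s : Finset ι) (α : MulAut A) (f : ι → A → ℝ) (x : A) :
    sm α (fun y => ∑ i ∈ s, f i y) x = ∑ i ∈ s, sm α (f i) x := by
  unfold sm
  rw [Finset.sum_comm, Finset.mul_sum]

theorem sm_mul (c : ℝ) (α : MulAut A) (f : A → ℝ) (x : A) :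
    sm α (fun y => c * f y) x = c * sm α f x := by
  unfold sm
  rw [← Finset.mul_sum]
  ring

variable {n : ℕ} (ρ : A →* unitaryGroup (Fin n) ℂ) (W : unitaryGroup (Fin n) ℂ) {α : MulAut A}

theorem op_add_sum {ι : Type*} (s : Finset ι) (c : ι → ℝ) (f : ι → A → ℝ) :
    op ρ (fun a => ∑ i ∈ s, c i * f i a) = ∑ i ∈ s, (c i : ℂ) • op ρ (f i) := by
  unfold op
  simp only [Finset.smul_sum]
  rw [Finset.sum_comm]
  refine Finset.sum_congr rfl fun a _ => ?_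
  push_cast
  rw [Finset.sum_smul]
  exact Finset.sum_congr rfl fun i _ => by rw [mul_smul]

theorem shift_trace (h : ∀ a, W * ρ a = ρ (α a) * W) (b x : A) :
    trace ((ρ (b * x * (α b)⁻¹) : Matrix (Fin n) (Fin n) ℂ) * (W : Matrix (Fin n) (Fin n) ℂ)) =
      trace ((ρ x : Matrix (Fin n) (Fin n) ℂ) * (W : Matrix (Fin n) (Fin n) ℂ)) := by
  have h1 : ρ (b * x * (α b)⁻¹) * W = ρ b * (ρ x * W) * (ρ b)⁻¹ := by
    have h2 := h b⁻¹
    rw [map_inv, map_inv, map_inv] at h2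
    rw [map_mul, map_mul, map_inv, mul_assoc, ← h2]
    group
  have h3 : trace ((ρ (b * x * (α b)⁻¹) * W : unitaryGroup (Fin n) ℂ) :
      Matrix (Fin n) (Fin n) ℂ) = trace ((ρ b * (ρ x * W) * (ρ b)⁻¹ : unitaryGroup (Fin n) ℂ) :
      Matrix (Fin n) (Fin n) ℂ) := by rw [h1]
  have e1 : ((ρ (b * x * (α b)⁻¹) * W : unitaryGroup (Fin n) ℂ) : Matrix (Fin n) (Fin n) ℂ) =
    (ρ (b * x * (α b)⁻¹) : Matrix (Fin n) (Fin n) ℂ) * (W : Matrix (Fin n) (Fin n) ℂ) := rfl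
  have e2 : ((ρ b * (ρ x * W) * (ρ b)⁻¹ : unitaryGroup (Fin n) ℂ) : Matrix (Fin n) (Fin n) ℂ) =
    (ρ b : Matrix (Fin n) (Fin n) ℂ) * ((ρ x : Matrix (Fin n) (Fin n) ℂ) *
      (W : Matrix (Fin n) (Fin n) ℂ)) * (ρ b⁻¹ : Matrix (Fin n) (Fin n) ℂ) := by
    rw [map_inv]
    rfl
  rw [e1, e2, trace_mul_cycle, ← coe_mul, inv_mul_cancel, map_one] at h3
  rw [h3]
  have e3 : ((1 : unitaryGroup (Fin n) ℂ) : Matrix (Fin n) (Fin n) ℂ) = 1 := rfl
  rw [e3, one_mul]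

/-- the averaging does not change the trace -/
theorem trace_sm (h : ∀ a, W * ρ a = ρ (α a) * W) (f : A → ℝ) :
    trace (op ρ (sm α f) * (W : Matrix (Fin n) (Fin n) ℂ)) =
      trace (op ρ f * (W : Matrix (Fin n) (Fin n) ℂ)) := by
  have e : ∀ g : A → ℝ, trace (op ρ g * (W : Matrix (Fin n) (Fin n) ℂ)) =
      ∑ a, (g a : ℂ) * trace ((ρ a : Matrix (Fin n) (Fin n) ℂ) *
        (W : Matrix (Fin n) (Fin n) ℂ)) := by
    intro g
    unfold op
    rw [Finset.sum_mul, trace_sum]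
    exact Finset.sum_congr rfl fun a _ => by rw [smul_mul_assoc, trace_smul, smul_eq_mul]
  rw [e, e]
  unfold sm
  push_cast
  have h1 : ∀ b, ∑ x, (f (b⁻¹ * x * α b) : ℂ) * trace ((ρ x : Matrix (Fin n) (Fin n) ℂ) *
      (W : Matrix (Fin n) (Fin n) ℂ)) = ∑ x, (f x : ℂ) * trace ((ρ x : Matrix (Fin n) (Fin n) ℂ) *
      (W : Matrix (Fin n) (Fin n) ℂ)) := by
    intro b
    refine Fintype.sum_equiv ((Equiv.mulLeft b⁻¹).trans (Equiv.mulRight (α b))) _ _ fun x => ?_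
    simp only [Equiv.trans_apply, Equiv.coe_mulLeft, Equiv.coe_mulRight]
    congr 1
    rw [← shift_trace ρ W h b (b⁻¹ * x * α b)]
    congr 4
    group
  calc ∑ x, (Fintype.card A : ℂ)⁻¹ * (∑ b, (f (b⁻¹ * x * α b) : ℂ)) *
        trace ((ρ x : Matrix (Fin n) (Fin n) ℂ) * (W : Matrix (Fin n) (Fin n) ℂ))
      = (Fintype.card A : ℂ)⁻¹ * ∑ b, ∑ x, (f (b⁻¹ * x * α b) : ℂ) *
        trace ((ρ x : Matrix (Fin n) (Fin n) ℂ) * (W : Matrix (Fin n) (Fin n) ℂ)) := by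
        rw [Finset.sum_comm, Finset.mul_sum]
        refine Finset.sum_congr rfl fun x _ => ?_
        rw [mul_assoc, Finset.sum_mul]
    _ = _ := by
        simp only [h1]
        rw [Finset.sum_const, Finset.card_univ, nsmul_eq_mul, ← mul_assoc,
          inv_mul_cancel₀ card_ne, one_mul]

end Avg

end Pool.Agent.N172.TW
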