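import Pool.Agent.N172.TW.Defs
import Pool.Agent.N172.TW.Mat
import Pool.Agent.W401.Cheb.AbsDefs

/-! The distributions on the group given by a twisted quotient. -/

set_option autoImplicit false
set_option linter.unusedSectionVars false

namespace Pool.Agent.N172.TW

open scoped Classical
open Pool.Agent.W401.Cheb (GK)

section
variable {K : Type} [Field K] {A : Type} [Group A] [Fintype A]
  {act : Gal(AlgebraicClosure K/K) →* MulAut A}

theorem Cocycle.one (c : Cocycle act) : c.c 1 = 1 := by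
  have h := c.mul 1 1
  rw [mul_one, map_one, MulAut.one_apply] at h
  exact (mul_eq_left.1 h.symm)

theorem Cocycle.mul_of_ker (c : Cocycle act) {u : GK K} (hu : u ∈ act.ker) (σ : GK K) :
    c.c (u * σ) = c.c u * c.c σ := by
  rw [c.mul, MonoidHom.mem_ker.1 hu, MulAut.one_apply]

/-- the uniform distribution on `B c(σ)` -/
noncomputable def Form.mu (F : Form act) (σ : GK K) (x : A) : ℝ :=
  if x * (F.c σ)⁻¹ ∈ F.B then (Nat.card F.B : ℝ)⁻¹ else 0

variable (F F' : Form act)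

theorem Form.card_pos : (0 : ℝ) < Nat.card F.B := by
  exact_mod_cast Nat.card_pos

theorem Form.mu_nonneg (σ : GK K) (x : A) : 0 ≤ F.mu σ x := by
  unfold Form.mu
  split_ifs
  · exact (inv_pos.2 F.card_pos).le
  · exact le_rfl

theorem Form.sum_mu_mul (σ : GK K) (f : A → ℝ) :
    ∑ x, F.mu σ x * f x = (Nat.card F.B : ℝ)⁻¹ * ∑ b : F.B, f (b * F.c σ) := by
  have h1 : ∑ x, F.mu σ x * f x = ∑ y, (if y ∈ F.B then (Nat.card F.B : ℝ)⁻¹ else 0) *
      f (y * F.c σ) := by
    refine Fintype.sum_equiv (Equiv.mulRight (F.c σ)⁻¹) _ _ fun x => ?_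
    simp [Form.mu]
  rw [h1]
  have h2 : ∀ y, (if y ∈ F.B then (Nat.card F.B : ℝ)⁻¹ else 0) * f (y * F.c σ) =
      if y ∈ F.B then (Nat.card F.B : ℝ)⁻¹ * f (y * F.c σ) else 0 := by
    intro y
    split_ifs <;> simp
  simp only [h2]
  rw [← Finset.sum_filter, Finset.mul_sum]
  exact (Finset.sum_subtype (p := fun y => y ∈ F.B) (Finset.univ.filter fun y => y ∈ F.B)
    (fun y => by simp) fun y => (Nat.card F.B : ℝ)⁻¹ * f (y * F.c σ))

theorem Form.sum_mu (σ : GK K) : ∑ x, F.mu σ x = 1 := by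
  have h := F.sum_mu_mul σ fun _ => 1
  simp only [mul_one] at h
  rw [h, Finset.sum_const, Finset.card_univ, nsmul_eq_mul, mul_one, Nat.card_eq_fintype_card,
    inv_mul_cancel₀]
  have := F.card_pos
  rw [Nat.card_eq_fintype_card] at this
  exact this.ne'

theorem Form.mu_left {u : GK K} (hu : u ∈ act.ker) (hc : F.c u = 1) (σ : GK K) :
    F.mu (u * σ) = F.mu σ := by
  funext x
  unfold Form.mu
  rw [F.mul_of_ker hu, hc, one_mul]

/-- equivariance after averaging -/
theorem Form.sm_conj (τ σ : GK K) (x : A) :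
    sm (act (τ * σ * τ⁻¹)) (F.mu (τ * σ * τ⁻¹)) (act τ x) = sm (act σ) (F.mu σ) x := by
  have hc : F.c (τ * σ * τ⁻¹) = F.c τ * act τ (F.c σ) * (act (τ * σ * τ⁻¹) (F.c τ))⁻¹ := by
    have h1 := F.mul (τ * σ * τ⁻¹) τ
    rw [inv_mul_cancel_right, F.mul] at h1
    rw [h1, mul_inv_cancel_right]
  have hmu : ∀ y, F.mu (τ * σ * τ⁻¹) (act τ y) =
      F.mu σ (((act τ).symm (F.c τ))⁻¹ * y * act σ ((act τ).symm (F.c τ))) := by
    intro y
    unfold Form.mu
    have hiff : act τ y * (F.c (τ * σ * τ⁻¹))⁻¹ ∈ F.B ↔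
        ((act τ).symm (F.c τ))⁻¹ * y * act σ ((act τ).symm (F.c τ)) * (F.c σ)⁻¹ ∈ F.B := by
      rw [← F.stable τ (((act τ).symm (F.c τ))⁻¹ * y * act σ ((act τ).symm (F.c τ)) *
        (F.c σ)⁻¹)]
      have e1 : act (τ * σ * τ⁻¹) (F.c τ) = act τ (act σ ((act τ).symm (F.c τ))) := by
        have e2 : (act τ).symm (F.c τ) = act τ⁻¹ (F.c τ) := by
          rw [map_inv]
          rfl
        rw [e2, map_mul, map_mul]
        rfl
      have e3 : F.c τ * act τ (((act τ).symm (F.c τ))⁻¹ * y *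
          act σ ((act τ).symm (F.c τ)) * (F.c σ)⁻¹) * (F.c τ)⁻¹ =
          act τ y * (F.c (τ * σ * τ⁻¹))⁻¹ := by
        rw [hc, e1]
        simp only [map_mul, map_inv, MulEquiv.apply_symm_apply]
        group
      rw [e3]
    simp only [hiff]
  unfold sm
  congr 1
  refine Fintype.sum_equiv (((act τ).symm.toEquiv).trans
    (Equiv.mulRight ((act τ).symm (F.c τ)))) _ _ fun b => ?_
  have e4 : b⁻¹ * act τ x * act (τ * σ * τ⁻¹) b =
      act τ (((act τ).symm b)⁻¹ * x * act σ ((act τ).symm b)) := by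
    have e5 : act (τ * σ * τ⁻¹) b = act τ (act σ ((act τ).symm b)) := by
      have e2 : (act τ).symm b = act τ⁻¹ b := by
        rw [map_inv]
        rfl
      rw [e2, map_mul, map_mul]
      rfl
    rw [e5]
    simp only [map_mul, map_inv, MulEquiv.apply_symm_apply]
  rw [e4, hmu]
  congr 1
  simp only [Equiv.trans_apply, MulEquiv.toEquiv_eq_coe, MulEquiv.coe_toEquiv,
    Equiv.coe_mulRight, map_mul]
  group

/-! ### The sum over a subgroup -/

variable {V : Subgroup (GK K)} [V.Normal]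

theorem Cocycle.eq_of_mk (c : Cocycle act) (hV : ∀ u ∈ V, c.c u = 1) {x y : GK K}
    (h : (QuotientGroup.mk x : GK K ⧸ V) = QuotientGroup.mk y) : c.c x = c.c y := by
  have h1 := QuotientGroup.eq.1 h
  have h2 : y = x * (x⁻¹ * y) := by group
  rw [h2, c.mul, hV _ h1, map_one, mul_one]

theorem out_mem {U : Subgroup (GK K)} (hVU : V ≤ U) (u : U.map (QuotientGroup.mk' V)) :
    (u.1.out : GK K) ∈ U := by
  obtain ⟨w, hw, hwu⟩ := u.2
  have h1 : (QuotientGroup.mk w : GK K ⧸ V) = QuotientGroup.mk (u.1.out) := by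
    rw [QuotientGroup.out_eq']
    exact hwu
  have h2 := hVU (QuotientGroup.eq.1 h1)
  have h3 : (u.1.out : GK K) = w * (w⁻¹ * u.1.out) := by group
  rw [h3]
  exact U.mul_mem hw h2

variable [Finite (GK K ⧸ V)]

/-- the sum over the classes of a subgroup -/
noncomputable def Form.gg (F : Form act) (V U : Subgroup (GK K)) [V.Normal] [Finite (GK K ⧸ V)]
    (σ : GK K) (x : A) : ℝ :=
  ∑ᶠ u : U.map (QuotientGroup.mk' V), F.mu (u.1.out * σ) x

theorem Form.gg_left {U : Subgroup (GK K)} (hU : U ≤ act.ker) (hVU : V ≤ U)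
    (hV : ∀ u ∈ V, F.c u = 1) (σ : GK K) {b : A} (hb : b ∈ F.B) {w : GK K} (hw : w ∈ U) (x : A) :
    F.gg V U σ (b * F.c w * x) = F.gg V U σ x := by
  unfold Form.gg
  have hfin : Fintype (U.map (QuotientGroup.mk' V)) := Fintype.ofFinite _
  rw [finsum_eq_sum_of_fintype, finsum_eq_sum_of_fintype]
  set w' : U.map (QuotientGroup.mk' V) := ⟨QuotientGroup.mk w, ⟨w, hw, rfl⟩⟩ with hw'
  refine Fintype.sum_equiv (Equiv.mulLeft w'⁻¹) _ _ fun u => ?_
  have hwk : act w = 1 := MonoidHom.mem_ker.1 (hU hw)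
  have h1 : F.c ((w'⁻¹ * u).1.out) = (F.c w)⁻¹ * F.c (u.1.out) := by
    have h2 : (QuotientGroup.mk ((w'⁻¹ * u).1.out) : GK K ⧸ V) =
        QuotientGroup.mk (w⁻¹ * u.1.out) := by
      rw [QuotientGroup.out_eq', QuotientGroup.mk_mul, QuotientGroup.mk_inv,
        QuotientGroup.out_eq']
      rfl
    rw [F.eq_of_mk hV h2, F.mul_of_ker (U.inv_mem hw |> fun h => hU h)]
    congr 1
    have h3 := F.mul_of_ker (hU hw) w⁻¹
    rw [mul_inv_cancel, F.one] at h3
    exact (inv_eq_of_mul_eq_one_right h3.symm).symm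
  simp only [Equiv.coe_mulLeft]
  unfold Form.mu
  rw [F.mul_of_ker (hU (out_mem hVU u)), F.mul_of_ker (hU (out_mem hVU _)), h1]
  have hiff : b * F.c w * x * (F.c (u.1.out) * F.c σ)⁻¹ ∈ F.B ↔
      x * ((F.c w)⁻¹ * F.c (u.1.out) * F.c σ)⁻¹ ∈ F.B := by
    rw [← F.stable w (x * ((F.c w)⁻¹ * F.c (u.1.out) * F.c σ)⁻¹), hwk, MulAut.one_apply]
    have e : b * F.c w * x * (F.c (u.1.out) * F.c σ)⁻¹ =
        b * (F.c w * (x * ((F.c w)⁻¹ * F.c (u.1.out) * F.c σ)⁻¹) * (F.c w)⁻¹) := by group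
    rw [e, F.B.mul_mem_cancel_left hb]
  simp only [hiff]

theorem Form.gg_eq {U : Subgroup (GK K)} (hU : U ≤ act.ker) (hVU : V ≤ U)
    (hV : ∀ u ∈ V, F.c u = 1) (σ : GK K) (x : A) :
    F.gg V U σ x = if x ∈ F.type U σ then
      (Nat.card (U.map (QuotientGroup.mk' V)) : ℝ) / Nat.card (F.type U σ) else 0 := by
  have hfin : Fintype (U.map (QuotientGroup.mk' V)) := Fintype.ofFinite _
  -- the values on the type
  have h1 : ∀ y ∈ F.type U σ, F.gg V U σ y = F.gg V U σ (F.c σ) := by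
    rintro y ⟨b, hb, u, hu, rfl⟩
    rw [F.mul_of_ker (hU hu), ← mul_assoc, F.gg_left hU hVU hV σ hb hu]
  have h2 : ∀ y, y ∉ F.type U σ → F.gg V U σ y = 0 := by
    intro y hy
    unfold Form.gg
    rw [finsum_eq_sum_of_fintype]
    refine Finset.sum_eq_zero fun u _ => ?_
    unfold Form.mu
    rw [if_neg]
    intro hmem
    apply hy
    exact ⟨_, hmem, _, out_mem hVU u, by group⟩
  have h3 : ∑ y, F.gg V U σ y = Nat.card (U.map (QuotientGroup.mk' V)) := by
    unfold Form.gg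
    simp only [finsum_eq_sum_of_fintype]
    rw [Finset.sum_comm]
    simp only [F.sum_mu]
    rw [Finset.sum_const, Finset.card_univ, nsmul_eq_mul, mul_one, Nat.card_eq_fintype_card]
  have h4 : ∑ y, F.gg V U σ y = Nat.card (F.type U σ) * F.gg V U σ (F.c σ) := by
    have e : ∀ y, F.gg V U σ y = if y ∈ F.type U σ then F.gg V U σ (F.c σ) else 0 := by
      intro y
      split_ifs with hy
      · exact h1 y hy
      · exact h2 y hy
    rw [Finset.sum_congr rfl fun y _ => e y, ← Finset.sum_filter, Finset.sum_const,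
      nsmul_eq_mul]
    congr 2
    rw [Nat.card_eq_fintype_card, Fintype.card_subtype]
  have hpos : (0 : ℝ) < Nat.card (F.type U σ) := by
    have : Nonempty (F.type U σ) := ⟨⟨F.c σ, 1, F.B.one_mem, 1, U.one_mem, by simp⟩⟩
    exact_mod_cast Nat.card_pos
  split_ifs with hx
  · rw [h1 x hx, eq_div_iff hpos.ne', ← h3, h4, mul_comm]
  · exact h2 x hx

/-- **The mean values over a subgroup depend only on the type.** -/
theorem gg_type {U : Subgroup (GK K)} (hU : U ≤ act.ker) (hVU : V ≤ U)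
    (hV : ∀ u ∈ V, F.c u = 1) (hV' : ∀ u ∈ V, F'.c u = 1) {σ : GK K}
    (h : F.type U σ = F'.type U σ) (x : A) : F.gg V U σ x = F'.gg V U σ x := by
  rw [F.gg_eq hU hVU hV, F'.gg_eq hU hVU hV', h]

end

end Pool.Agent.N172.TW
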