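import Pool.Agent.N172.TW.Bes
import Pool.Agent.Y149.WR.Size

/-! The sizes of the `L`-functions of the twisted quotients. -/

set_option autoImplicit false
set_option linter.unusedSectionVars false

namespace Pool.Agent.N172.TW

open Complex Filter Topology NumberField IsDedekindDomain Matrix Polynomial
open Pool.Agent.W540.BE Pool.Agent.W353.L1 Pool.Agent.W401.Cheb
open Pool.Agent.H341R2 (lam lam_tendsto)
open Pool.Agent.W353.EF (LFun size)
open Pool.Agent.Y149.WR (size_sys)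
open Pool.Agent.Y722.EP (EP_fin)
open scoped Classical

section
variable {n : ℕ}

theorem norm_trace_le (U : unitaryGroup (Fin n) ℂ) :
    ‖trace (U : Matrix (Fin n) (Fin n) ℂ)‖ ≤ n := by
  have h := norm_trace_mul_sq (1 : Matrix (Fin n) (Fin n) ℂ) (U : Matrix (Fin n) (Fin n) ℂ)
  have h1 : (U : Matrix (Fin n) (Fin n) ℂ) * (U : Matrix (Fin n) (Fin n) ℂ)ᴴ = 1 :=
    Unitary.mul_star_self_of_mem U.2
  rw [h1, one_mul, conjTranspose_one, one_mul, trace_one] at h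
  simp only [Fintype.card_fin, Complex.natCast_re] at h
  have h2 : (n : ℝ) * n = (n : ℝ) ^ 2 := by ring
  rw [h2] at h
  exact abs_le_of_sq_le_sq' h (Nat.cast_nonneg _) |>.2

theorem trace_star (U : unitaryGroup (Fin n) ℂ) :
    (trace ((U⁻¹ : unitaryGroup (Fin n) ℂ) : Matrix (Fin n) (Fin n) ℂ)).re =
      (trace (U : Matrix (Fin n) (Fin n) ℂ)).re := by
  have e : ((U⁻¹ : unitaryGroup (Fin n) ℂ) : Matrix (Fin n) (Fin n) ℂ) =
      (U : Matrix (Fin n) (Fin n) ℂ)ᴴ := rfl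
  rw [e, trace_conjTranspose]
  exact Complex.conj_re _

theorem trace_cyc (U V : unitaryGroup (Fin n) ℂ) :
    trace ((U * V : unitaryGroup (Fin n) ℂ) : Matrix (Fin n) (Fin n) ℂ) =
      trace ((V * U : unitaryGroup (Fin n) ℂ) : Matrix (Fin n) (Fin n) ℂ) := by
  have e1 : ((U * V : unitaryGroup (Fin n) ℂ) : Matrix (Fin n) (Fin n) ℂ) =
      (U : Matrix (Fin n) (Fin n) ℂ) * (V : Matrix (Fin n) (Fin n) ℂ) := rfl
  have e2 : ((V * U : unitaryGroup (Fin n) ℂ) : Matrix (Fin n) (Fin n) ℂ) =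
      (V : Matrix (Fin n) (Fin n) ℂ) * (U : Matrix (Fin n) (Fin n) ℂ) := rfl
  rw [e1, e2, trace_mul_comm]

end

section
variable {K : Type} [Field K] [NumberField K] {A : Type} [Group A] [Fintype A]
  {act : Gal(AlgebraicClosure K/K) →* MulAut A} {n : ℕ}

/-- the trace of a twisted quotient -/
noncomputable def fr (ρ : HeightOneSpectrum (𝓞 K) → (A →* unitaryGroup (Fin n) ℂ))
    (W : HeightOneSpectrum (𝓞 K) → unitaryGroup (Fin n) ℂ)
    (σ : HeightOneSpectrum (𝓞 K) → GK K) (F : Form act)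
    (v : HeightOneSpectrum (𝓞 K)) : ℝ :=
  (trace (op (ρ v) (F.mu (σ v)) * (W v : Matrix (Fin n) (Fin n) ℂ))).re

variable (ρ : HeightOneSpectrum (𝓞 K) → (A →* unitaryGroup (Fin n) ℂ))
  (W : HeightOneSpectrum (𝓞 K) → unitaryGroup (Fin n) ℂ)
  (σ : HeightOneSpectrum (𝓞 K) → GK K)

theorem fr_eq (F : Form act) (v : HeightOneSpectrum (𝓞 K)) :
    fr ρ W σ F v = (Nat.card F.B : ℝ)⁻¹ * ∑ b : F.B,
      (trace ((ρ v (b * F.c (σ v)) * W v : unitaryGroup (Fin n) ℂ) :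
        Matrix (Fin n) (Fin n) ℂ)).re := by
  classical
  rw [← F.sum_mu_mul (σ v) fun x => (trace ((ρ v x * W v : unitaryGroup (Fin n) ℂ) :
        Matrix (Fin n) (Fin n) ℂ)).re]
  unfold fr op
  rw [Finset.sum_mul, trace_sum, Complex.re_sum]
  refine Finset.sum_congr rfl fun x _ => ?_
  rw [smul_mul_assoc, trace_smul, smul_eq_mul, Complex.re_ofReal_mul]
  rfl

theorem abs_fr (F : Form act) (v : HeightOneSpectrum (𝓞 K)) : |fr ρ W σ F v| ≤ n := by
  classical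
  rw [fr_eq, abs_mul, abs_inv, Nat.abs_cast, inv_mul_le_iff₀ F.card_pos]
  refine (Finset.abs_sum_le_sum_abs _ _).trans ?_
  refine (Finset.sum_le_card_nsmul _ _ (n : ℝ) fun b _ =>
    (Complex.abs_re_le_norm _).trans (norm_trace_le _)).trans ?_
  rw [nsmul_eq_mul, Finset.card_univ, Nat.card_eq_fintype_card]

theorem gt_eq (P : Form act × Form act) (v : HeightOneSpectrum (𝓞 K)) :
    gt ρ W σ P v = fr ρ W σ P.1 v - fr ρ W σ P.2 v := by
  unfold gt fr
  have h : op (ρ v) (nu P (σ v)) = op (ρ v) (P.1.mu (σ v)) - op (ρ v) (P.2.mu (σ v)) := by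
    unfold op nu
    rw [← Finset.sum_sub_distrib]
    refine Finset.sum_congr rfl fun x _ => ?_
    push_cast
    rw [sub_smul]
  rw [h, sub_mul, trace_sub, Complex.sub_re]

end

section
variable {K : Type} [Field K] [NumberField K] {A : Type} [Group A] [Fintype A] {l : ℕ}
  {X : Set (MvPolynomial (Fin l) (𝓞 K))} {act : Gal(AlgebraicClosure K/K) →* MulAut A}
  {M : A → Matrix (Fin l) (Fin l) (𝓞 (AlgebraicClosure K))} {d : ℕ} {N : ℕ → ℕ}

/-- the trace of a twisted quotient, for the cohomology -/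
noncomputable def Coh.fr (H : Coh X act M d N) (i : ℕ) (F : Form act)
    (v : HeightOneSpectrum (𝓞 K)) : ℝ :=
  TW.fr (fun v => H.ρ v i) (fun v => H.W v i) H.σ F v

theorem Coh.abs_fr (H : Coh X act M d N) (i : ℕ) (F : Form act)
    (v : HeightOneSpectrum (𝓞 K)) : |H.fr i F v| ≤ N i := TW.abs_fr _ _ _ F v

/-- the trace of the geometric Frobenius on the invariants -/
theorem frob_trace (H : Coh X act M d N) (i : ℕ) (F : Form act) :
    ∀ᶠ v in cofinite, ((Nat.card F.B : ℂ)⁻¹ * ∑ᶠ b : F.B,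
      ((((Ideal.absNorm v.asIdeal : ℝ) ^ ((i : ℝ) / 2)) ^ 1 : ℝ) : ℂ) *
        trace ((H.ρ v i b * (H.ρ v i (F.c (H.σ v)) * H.W v i)⁻¹ ^ 1 :
          unitaryGroup (Fin (N i)) ℂ) : Matrix (Fin (N i)) (Fin (N i)) ℂ)) =
      (((Ideal.absNorm v.asIdeal : ℝ) ^ ((i : ℝ) / 2) * H.fr i F v : ℝ) : ℂ) := by
  classical
  filter_upwards [H.int] with v hv
  set q : ℝ := (Ideal.absNorm v.asIdeal : ℝ) ^ ((i : ℝ) / 2) with hq
  have h1 : ∀ b : F.B, (((q ^ 1 : ℝ)) : ℂ) * trace ((H.ρ v i b *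
      (H.ρ v i (F.c (H.σ v)) * H.W v i)⁻¹ ^ 1 :
        unitaryGroup (Fin (N i)) ℂ) : Matrix (Fin (N i)) (Fin (N i)) ℂ) =
      ((q * (trace ((H.ρ v i ((b⁻¹ : F.B) * F.c (H.σ v)) * H.W v i :
        unitaryGroup (Fin (N i)) ℂ) : Matrix (Fin (N i)) (Fin (N i)) ℂ)).re : ℝ) : ℂ) := by
    intro b
    have e1 : trace ((H.ρ v i b * (H.ρ v i (F.c (H.σ v)) * H.W v i)⁻¹ ^ 1 :
        unitaryGroup (Fin (N i)) ℂ) : Matrix (Fin (N i)) (Fin (N i)) ℂ) =
        trace ((H.ρ v i ((F.c (H.σ v))⁻¹ * b) * (H.W v i)⁻¹ ^ 1 :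
        unitaryGroup (Fin (N i)) ℂ) : Matrix (Fin (N i)) (Fin (N i)) ℂ) := by
      have e2 : H.ρ v i b * (H.ρ v i (F.c (H.σ v)) * H.W v i)⁻¹ ^ 1 =
          (H.ρ v i b * (H.W v i)⁻¹) * (H.ρ v i (F.c (H.σ v)))⁻¹ := by
        rw [pow_one, _root_.mul_inv_rev, mul_assoc]
      rw [e2, trace_cyc, map_mul, map_inv, pow_one, mul_assoc]
    have e3 : trace ((H.ρ v i ((F.c (H.σ v))⁻¹ * b) * (H.W v i)⁻¹ ^ 1 :
        unitaryGroup (Fin (N i)) ℂ) : Matrix (Fin (N i)) (Fin (N i)) ℂ) =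
        trace ((((H.ρ v i ((b⁻¹ : F.B) * F.c (H.σ v)) * H.W v i)⁻¹ :
        unitaryGroup (Fin (N i)) ℂ)) : Matrix (Fin (N i)) (Fin (N i)) ℂ) := by
      rw [_root_.mul_inv_rev, trace_cyc, pow_one, ← map_inv]
      congr 3
      rw [_root_.mul_inv_rev]
      simp
    obtain ⟨z, hz⟩ := hv i ((F.c (H.σ v))⁻¹ * b) 1 le_rfl
    rw [e1]
    refine Complex.ext ?_ ?_
    · rw [Complex.ofReal_re, Complex.re_ofReal_mul, e3, trace_star, pow_one]
    · rw [Complex.ofReal_im]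
      have h2 := congrArg Complex.im hz
      rw [Complex.intCast_im] at h2
      exact h2
  rw [finsum_eq_sum_of_fintype, Finset.sum_congr rfl fun b _ => h1 b, ← Complex.ofReal_sum,
    ← Finset.mul_sum]
  unfold Coh.fr
  rw [fr_eq]
  have h2 : ∑ b : F.B, (trace ((H.ρ v i ((b⁻¹ : F.B) * F.c (H.σ v)) * H.W v i :
        unitaryGroup (Fin (N i)) ℂ) : Matrix (Fin (N i)) (Fin (N i)) ℂ)).re =
      ∑ b : F.B, (trace ((H.ρ v i (b * F.c (H.σ v)) * H.W v i :
        unitaryGroup (Fin (N i)) ℂ) : Matrix (Fin (N i)) (Fin (N i)) ℂ)).re :=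
    Fintype.sum_equiv (Equiv.inv F.B) _ _ fun b => rfl
  rw [h2]
  push_cast
  ring

/-- **The size for a twisted quotient.** -/
theorem size_form {H : Coh X act M d N} {F : Form act} {i m : ℕ}
    {E : HeightOneSpectrum (𝓞 K) → ℂ[X]} (hE : IsEuler H F i m E) :
    (∀ᶠ ε : ℝ in 𝓝[>] 0, LFun E ((i : ℂ) / 2 + 1 + ε) ≠ 0) ∧
    Tendsto (fun ε : ℝ => (EP (nm K) ε fun v => H.fr i F v) / lam ε - size i E ε)
      (𝓝[>] 0) (𝓝 0) := by
  refine size_sys (M := m) E (fun v => (((nm K v : ℝ) ^ ((i : ℝ) / 2) * H.fr i F v : ℝ) : ℂ)) ?_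
    hE.2 _ (fun v => H.abs_fr i F v) ?_
  · filter_upwards [hE.1, frob_trace H i F] with v h1 h2
    obtain ⟨δ, h3, h4, h5⟩ := h1
    refine ⟨Complex.ofReal_im _, δ, h3, ?_, h5⟩
    have h6 := h4 1 le_rfl
    simp only [pow_one] at h6 h2
    rw [h6]
    exact h2
  · refine Eventually.of_forall fun v => ?_
    rw [Complex.ofReal_re]
    have h1 : (0 : ℝ) < nm K v := Pool.Agent.Y149.WR.nm_pos2 v
    rw [mul_right_comm, ← Real.rpow_add h1, add_neg_cancel, Real.rpow_zero, one_mul]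

/-- **The size for a pair.** -/
theorem size_pair {H : Coh X act M d N} {P : Form act × Form act} {i m m' : ℕ}
    {E E' : HeightOneSpectrum (𝓞 K) → ℂ[X]} (hE : IsEuler H P.1 i m E)
    (hE' : IsEuler H P.2 i m' E') :
    Tendsto (fun ε : ℝ => (EP (nm K) ε fun v =>
      gt (fun v => H.ρ v i) (fun v => H.W v i) H.σ P v) / lam ε - (size i E ε - size i E' ε))
      (𝓝[>] 0) (𝓝 0) := by
  have hN : NormSys (nm K) := normSys
  have h := (size_form hE).2.sub (size_form hE').2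
  rw [sub_zero] at h
  refine h.congr' ?_
  filter_upwards [self_mem_nhdsWithin] with ε hε
  have hε' : (0 : ℝ) < ε := hε
  have e1 : (fun v => gt (fun v => H.ρ v i) (fun v => H.W v i) H.σ P v) =
      fun v => H.fr i P.1 v + (-1) * H.fr i P.2 v := by
    funext v
    rw [gt_eq]
    unfold Coh.fr
    ring
  rw [e1, EP_add hN hε' (fun v => H.abs_fr i P.1 v) (B' := N i) (fun v => by
    rw [abs_mul, abs_neg, abs_one, one_mul]
    exact H.abs_fr i P.2 v), EP_const_mul]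
  ring

end

end Pool.Agent.N172.TW
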